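import Pool.Agent.H364R2.PiE
import Pool.Agent.H297R2.Density

/-!
# The five numbers and the powers `α ^ e`, `α ^ π`

The group `G` of positive algebraic numbers `α` with `α ^ e` algebraic has rank at most two; at most
one if one of `π + e`, `π e`, `e ^ e` is algebraic, and it is trivial if `π e` and one of `e ^ e`,
`π ^ e`, `π ^ π` are algebraic. In particular at most two of the numbers
`π e`, `e ^ e`, `2 ^ e`, `3 ^ e`, `5 ^ e`, `7 ^ e`, … are algebraic.
-/

set_option autoImplicit false

namespace Pool.Agent.Results.MP_a49cf6_nt.AlgebraicPowers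

open Finset Pool.Agent.H340R2.LW Pool.Agent.H301R2.SSE Pool.Agent.H364R2.PiE

/-- The space of all `x` with `x` and `θ x` in the span of `1` and the logarithms of algebraic
numbers has dimension at most two. -/
theorem dim_two {θ : ℂ} (hθ : Transcendental ℚ θ) (x : Fin 3 → ℂ) (hx : ∀ i, x i ∈ Lt)
    (hx' : ∀ i, θ * x i ∈ Lt)
    (hi : ∀ c : Fin 3 → ℂ, (∀ i, IsAlgebraic ℚ (c i)) → ∑ i, c i * x i = 0 → ∀ i, c i = 0) :
    False := by
  refine strong_six ![1, θ] x ?_ hi ?_
  · intro a b ha hb h
    simp only [Matrix.cons_val_zero, Matrix.cons_val_one, mul_one] at h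
    by_cases hb0 : b = 0
    · subst hb0; simpa using h
    · exfalso
      apply hθ
      have : θ = -a * b⁻¹ := by
        field_simp
        linear_combination h
      rw [this]
      exact ha.neg.mul hb.inv
  · intro i j
    fin_cases i
    · simpa using hx j
    · simpa using hx' j

theorem e_tr : Transcendental ℚ ((Real.exp 1 : ℝ) : ℂ) := by
  have := transcendental_exp_one_complex
  simpa using this

/-- Baker's theorem for `1`, `π` and real logarithms -/
theorem baker_real {m : ℕ} (l : Fin m → ℝ) (hl : ∀ i, IsAlgebraic ℚ (Complex.exp (l i)))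
    (hli : LinearIndependent ℚ l) {a b : ℂ} {c : Fin m → ℂ} (ha : IsAlgebraic ℚ a)
    (hb : IsAlgebraic ℚ b) (hc : ∀ i, IsAlgebraic ℚ (c i))
    (h : a + b * (Real.pi : ℂ) + ∑ i, c i * (l i : ℂ) = 0) : a = 0 ∧ b = 0 ∧ ∀ i, c i = 0 := by
  have hω : LinearIndependent ℚ
      (Fin.cons (Real.pi * Complex.I : ℂ) (fun i => (l i : ℂ)) : Fin (m + 1) → ℂ) := by
    rw [Fintype.linearIndependent_iff]
    intro g hg
    rw [Fin.sum_univ_succ] at hg
    simp only [Fin.cons_zero, Fin.cons_succ] at hg
    have h1 : (∑ i : Fin m, g i.succ • (l i : ℂ)) = ((∑ i : Fin m, (g i.succ : ℝ) * l i : ℝ) : ℂ) := by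
      push_cast
      refine sum_congr rfl fun i _ => ?_
      rw [Rat.smul_def]
    rw [h1] at hg
    have hre := congrArg Complex.re hg
    have him := congrArg Complex.im hg
    simp only [Rat.smul_def, Complex.add_re,
      Complex.add_im, Complex.mul_re, Complex.mul_im, Complex.ratCast_re, Complex.ratCast_im,
      Complex.ofReal_re, Complex.ofReal_im, Complex.I_re, Complex.I_im, Complex.zero_re,
      Complex.zero_im, mul_zero, zero_mul, sub_zero, add_zero, mul_one, zero_add, sub_self]
      at hre him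
    have h0 : g 0 = 0 := by
      have := (mul_eq_zero.mp him).resolve_right Real.pi_ne_zero
      exact_mod_cast this
    have h2 := (Fintype.linearIndependent_iff.mp hli) (fun i => g i.succ) (by
      rw [← hre]
      refine sum_congr rfl fun i _ => ?_
      rw [Rat.smul_def])
    intro i
    refine Fin.cases h0 (fun j => h2 j) i
  obtain ⟨h3, h4⟩ := Pool.Agent.H297R2.baker_inhom
    (Fin.cons (Real.pi * Complex.I : ℂ) (fun i => (l i : ℂ)) : Fin (m + 1) → ℂ)
    (by
      intro i
      refine Fin.cases ?_ (fun j => ?_) i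
      · change IsAlgebraic ℚ (Complex.exp (Real.pi * Complex.I))
        rw [Complex.exp_pi_mul_I]
        exact isAlgebraic_one.neg
      · exact hl j) hω a ha (Fin.cons (-(Complex.I * b)) c) (by
      intro i
      refine Fin.cases ?_ (fun j => ?_) i
      · exact (isAlgebraic_I.mul hb).neg
      · exact hc j) (by
      rw [Fin.sum_univ_succ]
      simp only [Fin.cons_zero, Fin.cons_succ]
      have hI : Complex.I * Complex.I = -1 := Complex.I_mul_I
      rw [← h]
      linear_combination (-(b * (Real.pi : ℂ))) * hI)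
  refine ⟨h3, ?_, fun i => ?_⟩
  · have h5 := h4 0
    simp only [Fin.cons_zero, neg_eq_zero] at h5
    exact (mul_eq_zero.mp h5).resolve_left Complex.I_ne_zero
  · have h5 := h4 i.succ
    simpa using h5

theorem exp_log_alg {α : ℝ} (h0 : 0 < α) (h : IsAlgebraic ℚ α) :
    IsAlgebraic ℚ (Complex.exp ((Real.log α : ℝ) : ℂ)) := by
  rw [← Complex.ofReal_exp, Real.exp_log h0]
  exact toC h

theorem exp_mul_log_alg {α t : ℝ} (h0 : 0 < α) (h : IsAlgebraic ℚ (α ^ t)) :
    IsAlgebraic ℚ (Complex.exp ((t * Real.log α : ℝ) : ℂ)) := by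
  rw [← Complex.ofReal_exp]
  rw [Real.rpow_def_of_pos h0, mul_comm] at h
  exact toC h

theorem Lt_mul_log {α t : ℝ} (h0 : 0 < α) (h : IsAlgebraic ℚ (α ^ t)) :
    (t : ℂ) * ((Real.log α : ℝ) : ℂ) ∈ Lt := by
  rw [← Complex.ofReal_mul]
  exact Lt_log (exp_mul_log_alg h0 h)

theorem Lt_logpi (h : IsAlgebraic ℚ (Real.pi * Real.exp 1)) : ((Real.log Real.pi : ℝ) : ℂ) ∈ Lt := by
  have h4 : ((Real.log Real.pi + 1 : ℝ) : ℂ) ∈ Lt := Lt_log (by
    rw [exp_log_add_one]; exact toC h)
  have h5 := Lt.sub_mem h4 Lt_one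
  have e : ((Real.log Real.pi + 1 : ℝ) : ℂ) - 1 = ((Real.log Real.pi : ℝ) : ℂ) := by
    push_cast; ring
  rwa [e] at h5

theorem LB_pi : (Real.pi : ℂ) ∈ LB := by
  have h1 : (Real.pi * Complex.I : ℂ) ∈ LB := LB_log (by
    rw [Complex.exp_pi_mul_I]; exact isAlgebraic_one.neg)
  have h2 := LB_mul (isAlgebraic_I.neg) h1
  have e : -Complex.I * (Real.pi * Complex.I : ℂ) = Real.pi := by
    have : Complex.I * Complex.I = -1 := Complex.I_mul_I
    linear_combination (-(Real.pi : ℂ)) * this
  rwa [e] at h2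

theorem Lt_e (h : IsAlgebraic ℚ (Real.pi + Real.exp 1) ∨ IsAlgebraic ℚ (Real.exp 1 ^ Real.exp 1)) :
    ((Real.exp 1 : ℝ) : ℂ) ∈ Lt := by
  rcases h with h | h
  · have h5 := Lt.sub_mem (Lt_alg (toC h)) Lt_pi
    have e : ((Real.pi + Real.exp 1 : ℝ) : ℂ) - (Real.pi : ℂ) = ((Real.exp 1 : ℝ) : ℂ) := by
      push_cast; ring
    rwa [e] at h5
  · have h1 := Lt_mul_log (Real.exp_pos 1) h
    rwa [Real.log_exp, Complex.ofReal_one, mul_one] at h1

theorem log_ne {α : ℝ} (h0 : 0 < α) (h1 : α ≠ 1) : Real.log α ≠ 0 :=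
  Real.log_ne_zero_of_pos_of_ne_one h0 h1

/-- three independent powers `α ^ e` -/
theorem three_e (α : Fin 3 → ℝ) (h0 : ∀ i, 0 < α i) (ha : ∀ i, IsAlgebraic ℚ (α i))
    (hi : LinearIndependent ℚ (fun i => Real.log (α i)))
    (h : ∀ i, IsAlgebraic ℚ (α i ^ Real.exp 1)) : False := by
  refine dim_two e_tr (fun i => ((Real.log (α i) : ℝ) : ℂ))
    (fun i => Lt_log (exp_log_alg (h0 i) (ha i))) (fun i => Lt_mul_log (h0 i) (h i)) ?_
  intro c hc hs
  exact (baker_real _ (fun i => exp_log_alg (h0 i) (ha i)) hi isAlgebraic_zero isAlgebraic_zero hc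
    (by rw [zero_mul, zero_add, zero_add]; exact hs)).2.2

/-- two independent powers `α ^ e` and an element `y` equal to `1` or `π` -/
theorem two_e (α : Fin 2 → ℝ) (h0 : ∀ i, 0 < α i) (ha : ∀ i, IsAlgebraic ℚ (α i))
    (hi : LinearIndependent ℚ (fun i => Real.log (α i)))
    (h : ∀ i, IsAlgebraic ℚ (α i ^ Real.exp 1)) :
    Transcendental ℚ (Real.pi + Real.exp 1) ∧ Transcendental ℚ (Real.pi * Real.exp 1) ∧
      Transcendental ℚ (Real.exp 1 ^ Real.exp 1) := by
  have key : IsAlgebraic ℚ (Real.pi + Real.exp 1) ∨ IsAlgebraic ℚ (Real.exp 1 ^ Real.exp 1) →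
      False := by
    intro hE
    refine dim_two e_tr ![1, ((Real.log (α 0) : ℝ) : ℂ), ((Real.log (α 1) : ℝ) : ℂ)] ?_ ?_ ?_
    · intro i
      fin_cases i
      · exact Lt_one
      · exact Lt_log (exp_log_alg (h0 0) (ha 0))
      · exact Lt_log (exp_log_alg (h0 1) (ha 1))
    · intro i
      fin_cases i
      · change ((Real.exp 1 : ℝ) : ℂ) * 1 ∈ Lt
        rw [mul_one]; exact Lt_e hE
      · exact Lt_mul_log (h0 0) (h 0)
      · exact Lt_mul_log (h0 1) (h 1)
    · intro c hc hs
      rw [Fin.sum_univ_three] at hs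
      simp only [Matrix.cons_val_zero, Matrix.cons_val_one, Matrix.cons_val, mul_one] at hs
      obtain ⟨h1, -, h3⟩ := baker_real _ (fun i => exp_log_alg (h0 i) (ha i)) hi (hc 0)
        isAlgebraic_zero (c := ![c 1, c 2]) (by
          intro i
          fin_cases i
          · exact hc 1
          · exact hc 2) (by
          rw [Fin.sum_univ_two]
          simp only [Matrix.cons_val_zero, Matrix.cons_val_one]
          linear_combination hs)
      intro i
      fin_cases i
      · exact h1
      · simpa using h3 0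
      · simpa using h3 1
  refine ⟨fun hh => key (Or.inl hh), fun hh => ?_, fun hh => key (Or.inr hh)⟩
  refine dim_two e_tr ![(Real.pi : ℂ), ((Real.log (α 0) : ℝ) : ℂ), ((Real.log (α 1) : ℝ) : ℂ)]
    ?_ ?_ ?_
  · intro i
    fin_cases i
    · exact Lt_pi
    · exact Lt_log (exp_log_alg (h0 0) (ha 0))
    · exact Lt_log (exp_log_alg (h0 1) (ha 1))
  · intro i
    fin_cases i
    · change ((Real.exp 1 : ℝ) : ℂ) * (Real.pi : ℂ) ∈ Lt
      apply Lt_alg
      have := toC hh
      push_cast at this ⊢
      rwa [mul_comm]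
    · exact Lt_mul_log (h0 0) (h 0)
    · exact Lt_mul_log (h0 1) (h 1)
  · intro c hc hs
    rw [Fin.sum_univ_three] at hs
    simp only [Matrix.cons_val_zero, Matrix.cons_val_one, Matrix.cons_val] at hs
    obtain ⟨-, h1, h3⟩ := baker_real _ (fun i => exp_log_alg (h0 i) (ha i)) hi isAlgebraic_zero
      (hc 0) (c := ![c 1, c 2]) (by
        intro i
        fin_cases i
        · exact hc 1
        · exact hc 2) (by
        rw [Fin.sum_univ_two]
        simp only [Matrix.cons_val_zero, Matrix.cons_val_one]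
        linear_combination hs)
    intro i
    fin_cases i
    · exact h1
    · simpa using h3 0
    · simpa using h3 1

section one

variable {α : ℝ}

theorem one_e_ee (h0 : 0 < α) (h1 : α ≠ 1) (ha : IsAlgebraic ℚ α)
    (h : IsAlgebraic ℚ (α ^ Real.exp 1)) (hb : IsAlgebraic ℚ (Real.pi * Real.exp 1))
    (hd : IsAlgebraic ℚ (Real.exp 1 ^ Real.exp 1)) : False := by
  refine dim_two e_tr ![1, (Real.pi : ℂ), ((Real.log α : ℝ) : ℂ)] ?_ ?_ ?_
  · intro i
    fin_cases i
    · exact Lt_one
    · exact Lt_pi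
    · exact Lt_log (exp_log_alg h0 ha)
  · intro i
    fin_cases i
    · change ((Real.exp 1 : ℝ) : ℂ) * 1 ∈ Lt
      rw [mul_one]; exact Lt_e (Or.inr hd)
    · change ((Real.exp 1 : ℝ) : ℂ) * (Real.pi : ℂ) ∈ Lt
      apply Lt_alg
      have := toC hb
      push_cast at this ⊢
      rwa [mul_comm]
    · exact Lt_mul_log h0 h
  · intro c hc hs
    rw [Fin.sum_univ_three] at hs
    simp only [Matrix.cons_val_zero, Matrix.cons_val_one, Matrix.cons_val, mul_one] at hs
    obtain ⟨h2, h3, h4⟩ := pair_indep (log_ne h0 h1) (exp_log_alg h0 ha) (hc 0) (hc 1) (hc 2) hs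
    intro i
    fin_cases i
    · exact h2
    · exact h3
    · exact h4

theorem one_e_pie (h0 : 0 < α) (h1 : α ≠ 1) (ha : IsAlgebraic ℚ α)
    (h : IsAlgebraic ℚ (α ^ Real.exp 1)) (hb : IsAlgebraic ℚ (Real.pi * Real.exp 1))
    (hc' : IsAlgebraic ℚ (Real.pi ^ Real.exp 1)) : False := by
  refine dim_two e_tr ![(Real.pi : ℂ), ((Real.log Real.pi : ℝ) : ℂ), ((Real.log α : ℝ) : ℂ)]
    ?_ ?_ ?_
  · intro i
    fin_cases i
    · exact Lt_pi
    · exact Lt_logpi hb
    · exact Lt_log (exp_log_alg h0 ha)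
  · intro i
    fin_cases i
    · change ((Real.exp 1 : ℝ) : ℂ) * (Real.pi : ℂ) ∈ Lt
      apply Lt_alg
      have := toC hb
      push_cast at this ⊢
      rwa [mul_comm]
    · exact Lt_mul_log Real.pi_pos hc'
    · exact Lt_mul_log h0 h
  · intro c hc hs
    rw [Fin.sum_univ_three] at hs
    simp only [Matrix.cons_val_zero, Matrix.cons_val_one, Matrix.cons_val] at hs
    have hL1 : ((Real.log Real.pi + 1 : ℝ) : ℂ) ∈ LB := LB_log (by
      rw [exp_log_add_one]; exact toC hb)
    have h5 : c 0 * (Real.pi : ℂ) + c 1 * ((Real.log Real.pi + 1 : ℝ) : ℂ) +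
        c 2 * ((Real.log α : ℝ) : ℂ) = c 1 := by
      push_cast at hs ⊢
      linear_combination hs
    have h6 : c 1 ∈ LB := by
      rw [← h5]
      exact LB.add_mem (LB.add_mem (LB_mul (hc 0) LB_pi) (LB_mul (hc 1) hL1))
        (LB_mul (hc 2) (LB_log (exp_log_alg h0 ha)))
    have h7 : c 1 = 0 := LB_alg h6 (hc 1)
    rw [h7] at hs
    obtain ⟨-, h8, h9⟩ := pair_indep (a := 0) (log_ne h0 h1) (exp_log_alg h0 ha) isAlgebraic_zero
      (hc 0) (hc 2) (by linear_combination hs)
    intro j
    fin_cases j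
    · exact h8
    · exact h7
    · exact h9

theorem pair_li {x y : ℝ} (hy : y ≠ 0) (h : ∀ q : ℚ, x ≠ q * y) :
    LinearIndependent ℚ (![x, y] : Fin 2 → ℝ) := by
  rw [LinearIndependent.pair_iff]
  intro s t hst
  simp only [Rat.smul_def] at hst
  by_cases hs : s = 0
  · subst hs
    simp only [Rat.cast_zero, zero_mul, zero_add] at hst
    have := (mul_eq_zero.mp hst).resolve_right hy
    exact ⟨rfl, by exact_mod_cast this⟩
  · exfalso
    have hs' : (s : ℝ) ≠ 0 := by exact_mod_cast hs
    apply h (-(t / s))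
    push_cast
    field_simp
    linear_combination hst

theorem one_e_pipi (h0 : 0 < α) (h1 : α ≠ 1) (ha : IsAlgebraic ℚ α)
    (h : IsAlgebraic ℚ (α ^ Real.exp 1)) (hb : IsAlgebraic ℚ (Real.pi * Real.exp 1))
    (hf : IsAlgebraic ℚ (Real.pi ^ Real.pi)) : False := by
  have hL := Lt_logpi hb
  by_cases hq : ∀ q : ℚ, Real.pi * Real.log Real.pi ≠ q * Real.log α
  · refine dim_two e_tr ![(Real.pi : ℂ), ((Real.pi * Real.log Real.pi : ℝ) : ℂ),
      ((Real.log α : ℝ) : ℂ)] ?_ ?_ ?_
    · intro i
      fin_cases i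
      · exact Lt_pi
      · exact Lt_log (exp_mul_log_alg Real.pi_pos hf)
      · exact Lt_log (exp_log_alg h0 ha)
    · intro i
      fin_cases i
      · change ((Real.exp 1 : ℝ) : ℂ) * (Real.pi : ℂ) ∈ Lt
        apply Lt_alg
        have := toC hb
        push_cast at this ⊢
        rwa [mul_comm]
      · change ((Real.exp 1 : ℝ) : ℂ) * ((Real.pi * Real.log Real.pi : ℝ) : ℂ) ∈ Lt
        have h9 := Lt_mul (toC hb) hL
        have e : ((Real.exp 1 : ℝ) : ℂ) * ((Real.pi * Real.log Real.pi : ℝ) : ℂ) =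
            ((Real.pi * Real.exp 1 : ℝ) : ℂ) * ((Real.log Real.pi : ℝ) : ℂ) := by
          push_cast; ring
        rwa [e]
      · exact Lt_mul_log h0 h
    · intro c hc hs
      rw [Fin.sum_univ_three] at hs
      simp only [Matrix.cons_val_zero, Matrix.cons_val_one, Matrix.cons_val] at hs
      obtain ⟨-, h3, h4⟩ := baker_real ![Real.pi * Real.log Real.pi, Real.log α] (by
          intro i
          fin_cases i
          · exact exp_mul_log_alg Real.pi_pos hf
          · exact exp_log_alg h0 ha) (pair_li (log_ne h0 h1) hq) isAlgebraic_zero (hc 0)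
        (c := ![c 1, c 2]) (by
          intro i
          fin_cases i
          · exact hc 1
          · exact hc 2) (by
          rw [Fin.sum_univ_two]
          simp only [Matrix.cons_val_zero, Matrix.cons_val_one]
          linear_combination hs)
      intro i
      fin_cases i
      · exact h3
      · simpa using h4 0
      · simpa using h4 1
  · push Not at hq
    obtain ⟨q, hq⟩ := hq
    -- `π e log π = q e log α` is a multiple of a logarithm
    have e1 : ((Real.pi * Real.exp 1 : ℝ) : ℂ) * ((Real.log Real.pi + 1 : ℝ) : ℂ) -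
        (q : ℂ) * ((Real.exp 1 * Real.log α : ℝ) : ℂ) = ((Real.pi * Real.exp 1 : ℝ) : ℂ) := by
      have hq' : (Real.pi : ℂ) * ((Real.log Real.pi : ℝ) : ℂ) = (q : ℂ) * ((Real.log α : ℝ) : ℂ) := by
        exact_mod_cast hq
      push_cast at hq' ⊢
      linear_combination (Complex.exp 1) * hq'
    have h6 : ((Real.pi * Real.exp 1 : ℝ) : ℂ) ∈ LB := by
      rw [← e1]
      refine LB.sub_mem (LB_mul (toC hb) (LB_log (by rw [exp_log_add_one]; exact toC hb)))
        (LB_mul (isAlgebraic_algebraMap q) (LB_log (exp_mul_log_alg h0 h)))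
    have h7 := LB_alg h6 (toC hb)
    have h8 : Real.pi * Real.exp 1 = 0 := by exact_mod_cast h7
    exact (mul_pos Real.pi_pos (Real.exp_pos 1)).ne' h8

end one

/-- two independent powers `α ^ π` -/
theorem two_pi (α : Fin 2 → ℝ) (h0 : ∀ i, 0 < α i) (ha : ∀ i, IsAlgebraic ℚ (α i))
    (hi : LinearIndependent ℚ (fun i => Real.log (α i)))
    (h : ∀ i, IsAlgebraic ℚ (α i ^ Real.pi)) : False := by
  refine dim_two transcendental_pi_complex
    ![1, ((Real.log (α 0) : ℝ) : ℂ), ((Real.log (α 1) : ℝ) : ℂ)] ?_ ?_ ?_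
  · intro i
    fin_cases i
    · exact Lt_one
    · exact Lt_log (exp_log_alg (h0 0) (ha 0))
    · exact Lt_log (exp_log_alg (h0 1) (ha 1))
  · intro i
    fin_cases i
    · change (Real.pi : ℂ) * 1 ∈ Lt
      rw [mul_one]; exact Lt_pi
    · exact Lt_mul_log (h0 0) (h 0)
    · exact Lt_mul_log (h0 1) (h 1)
  · intro c hc hs
    rw [Fin.sum_univ_three] at hs
    simp only [Matrix.cons_val_zero, Matrix.cons_val_one, Matrix.cons_val, mul_one] at hs
    obtain ⟨h1, -, h3⟩ := baker_real _ (fun i => exp_log_alg (h0 i) (ha i)) hi (hc 0)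
      isAlgebraic_zero (c := ![c 1, c 2]) (by
        intro i
        fin_cases i
        · exact hc 1
        · exact hc 2) (by
        rw [Fin.sum_univ_two]
        simp only [Matrix.cons_val_zero, Matrix.cons_val_one]
        linear_combination hs)
    intro i
    fin_cases i
    · exact h1
    · simpa using h3 0
    · simpa using h3 1

theorem one_pi_ee {α : ℝ} (h0 : 0 < α) (h1 : α ≠ 1) (ha : IsAlgebraic ℚ α)
    (h : IsAlgebraic ℚ (α ^ Real.pi)) (hb : IsAlgebraic ℚ (Real.pi * Real.exp 1))
    (hd : IsAlgebraic ℚ (Real.exp 1 ^ Real.exp 1)) : False := by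
  have hee : IsAlgebraic ℚ (Complex.exp ((Real.exp 1 : ℝ) : ℂ)) := by
    have := exp_mul_log_alg (Real.exp_pos 1) hd
    rwa [Real.log_exp, mul_one] at this
  by_cases hq : ∀ q : ℚ, Real.log α ≠ q * Real.exp 1
  · refine dim_two transcendental_pi_complex
      ![1, ((Real.log α : ℝ) : ℂ), ((Real.exp 1 : ℝ) : ℂ)] ?_ ?_ ?_
    · intro i
      fin_cases i
      · exact Lt_one
      · exact Lt_log (exp_log_alg h0 ha)
      · exact Lt_e (Or.inr hd)
    · intro i
      fin_cases i
      · change (Real.pi : ℂ) * 1 ∈ Lt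
        rw [mul_one]; exact Lt_pi
      · exact Lt_mul_log h0 h
      · change (Real.pi : ℂ) * ((Real.exp 1 : ℝ) : ℂ) ∈ Lt
        apply Lt_alg
        have := toC hb
        rwa [Complex.ofReal_mul] at this
    · intro c hc hs
      rw [Fin.sum_univ_three] at hs
      simp only [Matrix.cons_val_zero, Matrix.cons_val_one, Matrix.cons_val, mul_one] at hs
      obtain ⟨h3, -, h4⟩ := baker_real ![Real.log α, Real.exp 1] (by
          intro i
          fin_cases i
          · exact exp_log_alg h0 ha
          · exact hee) (pair_li (Real.exp_ne_zero 1) hq) (hc 0) isAlgebraic_zero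
        (c := ![c 1, c 2]) (by
          intro i
          fin_cases i
          · exact hc 1
          · exact hc 2) (by
          rw [Fin.sum_univ_two]
          simp only [Matrix.cons_val_zero, Matrix.cons_val_one]
          linear_combination hs)
      intro i
      fin_cases i
      · exact h3
      · simpa using h4 0
      · simpa using h4 1
  · push Not at hq
    obtain ⟨q, hq⟩ := hq
    have h2 := exp_mul_log_alg h0 h
    rw [hq] at h2
    have h3 : IsAlgebraic ℚ ((Real.pi * ((q : ℝ) * Real.exp 1) : ℝ) : ℂ) := by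
      apply toC
      have := (isAlgebraic_algebraMap q : IsAlgebraic ℚ ((q : ℚ) : ℝ)).mul hb
      have e : (q : ℝ) * (Real.pi * Real.exp 1) = Real.pi * ((q : ℝ) * Real.exp 1) := by ring
      rw [← e]
      exact this
    refine transcendental_cexp _ h3 ?_ h2
    have hq0 : (q : ℝ) ≠ 0 := by
      intro hq0
      rw [hq0, zero_mul] at hq
      exact log_ne h0 h1 hq
    have : Real.pi * ((q : ℝ) * Real.exp 1) ≠ 0 :=
      mul_ne_zero Real.pi_ne_zero (mul_ne_zero hq0 (Real.exp_ne_zero 1))
    exact_mod_cast this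

theorem one_pi_pipi {α : ℝ} (h0 : 0 < α) (h1 : α ≠ 1) (ha : IsAlgebraic ℚ α)
    (h : IsAlgebraic ℚ (α ^ Real.pi)) (hb : IsAlgebraic ℚ (Real.pi * Real.exp 1))
    (hf : IsAlgebraic ℚ (Real.pi ^ Real.pi)) : False := by
  have hlogp : IsAlgebraic ℚ (Complex.exp ((Real.log Real.pi + 1 : ℝ) : ℂ)) := by
    rw [exp_log_add_one]; exact toC hb
  have hpos : Real.log Real.pi + 1 ≠ 0 := by
    have := log_pi_pos
    positivity
  by_cases hq : ∀ q : ℚ, Real.log α ≠ q * (Real.log Real.pi + 1)
  · refine dim_two transcendental_pi_complex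
      ![1, ((Real.log α : ℝ) : ℂ), ((Real.log Real.pi : ℝ) : ℂ)] ?_ ?_ ?_
    · intro i
      fin_cases i
      · exact Lt_one
      · exact Lt_log (exp_log_alg h0 ha)
      · exact Lt_logpi hb
    · intro i
      fin_cases i
      · change (Real.pi : ℂ) * 1 ∈ Lt
        rw [mul_one]; exact Lt_pi
      · exact Lt_mul_log h0 h
      · exact Lt_mul_log Real.pi_pos hf
    · intro c hc hs
      rw [Fin.sum_univ_three] at hs
      simp only [Matrix.cons_val_zero, Matrix.cons_val_one, Matrix.cons_val, mul_one] at hs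
      obtain ⟨h3, -, h4⟩ := baker_real ![Real.log α, Real.log Real.pi + 1] (by
          intro i
          fin_cases i
          · exact exp_log_alg h0 ha
          · exact hlogp) (pair_li hpos hq) ((hc 0).sub (hc 2)) isAlgebraic_zero
        (c := ![c 1, c 2]) (by
          intro i
          fin_cases i
          · exact hc 1
          · exact hc 2) (by
          rw [Fin.sum_univ_two]
          simp only [Matrix.cons_val_zero, Matrix.cons_val_one]
          push_cast at hs ⊢
          linear_combination hs)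
      have e2 : c 2 = 0 := by simpa using h4 1
      intro i
      fin_cases i
      · change c 0 = 0
        rw [e2, sub_zero] at h3
        exact h3
      · simpa using h4 0
      · exact e2
  · push Not at hq
    obtain ⟨q, hq⟩ := hq
    have hq0 : q ≠ 0 := by
      intro hq0
      rw [hq0, Rat.cast_zero, zero_mul] at hq
      exact log_ne h0 h1 hq
    -- `q π` is a difference of logarithms
    have h2 : ((Real.pi * Real.log α : ℝ) : ℂ) ∈ LB := LB_log (exp_mul_log_alg h0 h)
    have h3 : IsAlgebraic ℚ (Real.exp ((q : ℝ) * Real.pi)) := by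
      -- with denominators cleared
      have hn : IsAlgebraic ℚ (Real.exp (Real.pi * Real.log α)) := by
        rwa [Real.rpow_def_of_pos h0, mul_comm] at h
      have hm : IsAlgebraic ℚ (Real.exp ((q : ℝ) * (Real.pi * Real.log Real.pi))) := by
        have hp : IsAlgebraic ℚ (Real.exp (Real.pi * Real.log Real.pi)) := by
          rwa [Real.rpow_def_of_pos Real.pi_pos, mul_comm] at hf
        have hden : (q.den : ℝ) ≠ 0 := by exact_mod_cast q.den_ne_zero
        apply IsAlgebraic.of_pow (n := q.den) q.den_pos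
        rw [← Real.exp_nat_mul]
        have e : (q.den : ℝ) * ((q : ℝ) * (Real.pi * Real.log Real.pi)) =
            (q.num : ℝ) * (Real.pi * Real.log Real.pi) := by
          have : (q.den : ℝ) * (q : ℝ) = (q.num : ℝ) := by
            have := Rat.den_mul_eq_num q
            exact_mod_cast this
          linear_combination (Real.pi * Real.log Real.pi) * this
        rw [e, mul_comm, Real.exp_mul, Real.rpow_intCast]
        rcases Int.eq_nat_or_neg q.num with ⟨k, hk | hk⟩
        · rw [hk, zpow_natCast]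
          exact hp.pow k
        · rw [hk, zpow_neg, zpow_natCast]
          exact (hp.pow k).inv
      have e : Real.exp ((q : ℝ) * Real.pi) = Real.exp (Real.pi * Real.log α) *
          (Real.exp ((q : ℝ) * (Real.pi * Real.log Real.pi)))⁻¹ := by
        rw [← Real.exp_neg, ← Real.exp_add]
        congr 1
        rw [hq]
        ring
      rw [e]
      exact hn.mul hm.inv
    obtain ⟨-, h4, -⟩ := pair_indep (lam := (q : ℝ) * Real.pi) (a := 0) (b := (q : ℂ)) (c := -1)
      (mul_ne_zero (by exact_mod_cast hq0) Real.pi_ne_zero)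
      (by rw [← Complex.ofReal_exp]; exact toC h3) isAlgebraic_zero (isAlgebraic_algebraMap q)
      isAlgebraic_one.neg (by push_cast; ring)
    exact hq0 (by exact_mod_cast h4)

theorem log_primes {m : ℕ} (p : Fin m → ℕ) (hp : ∀ i, (p i).Prime) (hinj : Function.Injective p) :
    LinearIndependent ℚ (fun i => Real.log (p i)) := by
  have h := Pool.Agent.H297R2.linearIndependent_log_prime p hp hinj
  rw [Fintype.linearIndependent_iff] at h ⊢
  intro g hg
  apply h g
  have h1 := congrArg (fun x : ℝ => (x : ℂ)) hg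
  simp only [Complex.ofReal_zero] at h1
  rw [← h1]
  push_cast
  refine sum_congr rfl fun i _ => ?_
  rfl

open Classical in
/-- The positive algebraic numbers `α` with `α ^ e` resp. `α ^ π` algebraic, and the five numbers. -/
theorem result :
    -- three multiplicatively independent `α` do not all have algebraic `α ^ e`
    (∀ α : Fin 3 → ℝ, (∀ i, 0 < α i) → (∀ i, IsAlgebraic ℚ (α i)) →
      LinearIndependent ℚ (fun i => Real.log (α i)) →
      ∃ i, Transcendental ℚ (α i ^ Real.exp 1)) ∧
    -- if two have, then `π + e`, `π e`, `e ^ e` are transcendental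
    (∀ α : Fin 2 → ℝ, (∀ i, 0 < α i) → (∀ i, IsAlgebraic ℚ (α i)) →
      LinearIndependent ℚ (fun i => Real.log (α i)) →
      (∀ i, IsAlgebraic ℚ (α i ^ Real.exp 1)) →
      Transcendental ℚ (Real.pi + Real.exp 1) ∧ Transcendental ℚ (Real.pi * Real.exp 1) ∧
        Transcendental ℚ (Real.exp 1 ^ Real.exp 1)) ∧
    -- if one has, then `π e` is transcendental or all of `π ^ e`, `e ^ e`, `π ^ π` are
    (∀ α : ℝ, 0 < α → α ≠ 1 → IsAlgebraic ℚ α → IsAlgebraic ℚ (α ^ Real.exp 1) →
      Transcendental ℚ (Real.pi * Real.exp 1) ∨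
        (Transcendental ℚ (Real.pi ^ Real.exp 1) ∧ Transcendental ℚ (Real.exp 1 ^ Real.exp 1) ∧
          Transcendental ℚ (Real.pi ^ Real.pi))) ∧
    -- two multiplicatively independent `α` do not both have algebraic `α ^ π`
    (∀ α : Fin 2 → ℝ, (∀ i, 0 < α i) → (∀ i, IsAlgebraic ℚ (α i)) →
      LinearIndependent ℚ (fun i => Real.log (α i)) →
      ∃ i, Transcendental ℚ (α i ^ Real.pi)) ∧
    -- if one has, then `π e` is transcendental or both `e ^ e` and `π ^ π` are
    (∀ α : ℝ, 0 < α → α ≠ 1 → IsAlgebraic ℚ α → IsAlgebraic ℚ (α ^ Real.pi) →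
      Transcendental ℚ (Real.pi * Real.exp 1) ∨
        (Transcendental ℚ (Real.exp 1 ^ Real.exp 1) ∧ Transcendental ℚ (Real.pi ^ Real.pi))) ∧
    -- at most two of `π e`, `e ^ e` (or `π + e`), `2 ^ e`, `3 ^ e`, `5 ^ e`, … are algebraic
    (∀ S : Finset ℕ, (∀ p ∈ S, p.Prime ∧ IsAlgebraic ℚ ((p : ℝ) ^ Real.exp 1)) →
      S.card + (if IsAlgebraic ℚ (Real.pi + Real.exp 1) ∨ IsAlgebraic ℚ (Real.exp 1 ^ Real.exp 1)
        then 1 else 0) + (if IsAlgebraic ℚ (Real.pi * Real.exp 1) then 1 else 0) ≤ 2) := by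
  refine ⟨?_, ?_, ?_, ?_, ?_, ?_⟩
  · intro α h0 ha hi
    by_contra hcon
    push Not at hcon
    exact three_e α h0 ha hi fun i => not_not.mp (hcon i)
  · intro α h0 ha hi h
    exact two_e α h0 ha hi h
  · intro α h0 h1 ha h
    by_cases hb : IsAlgebraic ℚ (Real.pi * Real.exp 1)
    · right
      exact ⟨fun hc => one_e_pie h0 h1 ha h hb hc, fun hd => one_e_ee h0 h1 ha h hb hd,
        fun hf => one_e_pipi h0 h1 ha h hb hf⟩
    · exact Or.inl hb
  · intro α h0 ha hi
    by_contra hcon
    push Not at hcon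
    exact two_pi α h0 ha hi fun i => not_not.mp (hcon i)
  · intro α h0 h1 ha h
    by_cases hb : IsAlgebraic ℚ (Real.pi * Real.exp 1)
    · right
      exact ⟨fun hd => one_pi_ee h0 h1 ha h hb hd, fun hf => one_pi_pipi h0 h1 ha h hb hf⟩
    · exact Or.inl hb
  · intro S hS
    have hpos : ∀ p ∈ S, (0 : ℝ) < p := fun p hp => by exact_mod_cast (hS p hp).1.pos
    by_cases h3 : 3 ≤ S.card
    · exfalso
      obtain ⟨T, hTS, hT⟩ := Finset.exists_subset_card_eq h3
      let e := (T.equivFin.trans (finCongr hT)).symm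
      exact three_e (fun i => ((e i : ℕ) : ℝ)) (fun i => hpos _ (hTS (e i).2))
        (fun i => isAlgebraic_natCast _)
        (log_primes (fun i => (e i : ℕ)) (fun i => (hS _ (hTS (e i).2)).1)
          (Subtype.val_injective.comp e.injective))
        (fun i => (hS _ (hTS (e i).2)).2)
    · by_cases h2 : S.card = 2
      · let e := (S.equivFin.trans (finCongr h2)).symm
        obtain ⟨h4, h5, h6⟩ := two_e (fun i => ((e i : ℕ) : ℝ)) (fun i => hpos _ (e i).2)
          (fun i => isAlgebraic_natCast _)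
          (log_primes (fun i => (e i : ℕ)) (fun i => (hS _ (e i).2).1)
            (Subtype.val_injective.comp e.injective))
          (fun i => (hS _ (e i).2).2)
        rw [if_neg (by rintro (h | h); exacts [h4 h, h6 h]), if_neg h5]
        omega
      · by_cases h1 : S.card = 1
        · obtain ⟨p, hp⟩ := Finset.card_eq_one.mp h1
          have hpS : p ∈ S := by rw [hp]; exact Finset.mem_singleton_self p
          have hp1 : (p : ℝ) ≠ 1 := by exact_mod_cast (hS p hpS).1.one_lt.ne'
          by_cases hb : IsAlgebraic ℚ (Real.pi * Real.exp 1)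
          · rw [if_pos hb, if_neg, h1]
            rintro (h | h)
            · exact sum_prod h hb
            · exact one_e_ee (hpos p hpS) hp1 (isAlgebraic_natCast _) (hS p hpS).2 hb h
          · rw [if_neg hb]
            split_ifs <;> omega
        · split_ifs <;> omega

end Pool.Agent.Results.MP_a49cf6_nt.AlgebraicPowers
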