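import Mathlib
import Pool.Agent.X231.EP.OneR
import Pool.Agent.X231.EP.SumProd
import Pool.Agent.H340R2.LW

/-!
# The five numbers with a random polynomial

For a polynomial `P` consider the numbers

  `P(π) + P(e)`,   `P(π) P(e)`,   `π ^ P(e)`,   `e ^ P(e)`,   `π ^ P(π)`;

for `P = X` these are the five numbers of the question.

(1) Let `t_1, …, t_n` be distinct transcendental numbers (algebraically independent or not),
`v_1, …, v_r` vectors in `ℂ^n` linearly independent over `ℂ` (for example the unit vectors), and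
`u_1, …, u_L` vectors in `ℂ^n` linearly independent over `ℚ`.  For almost all polynomials `P` of degree less
than `k` with coefficients in a finite set of rational numbers the numbers

  `ζ_a + ∑ v_(a,i) P(t_i)`  (`a = 1, …, r`),   `exp (ξ_l + ∑ u_(l,i) P(t_i))`   (`l = 1, …, L`)

satisfy no nonzero polynomial relation of bounded degree with coefficients in a given space of bounded
dimension over the field of the algebraic numbers.  More generally several random polynomials (with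
different data) may be taken together.

(2) Let `b` be `e` or `π`.  For almost all `P` the four numbers `P(π) + P(e)`, `P(π) P(e)`, `π ^ P(π)`,
`b ^ P(e)` satisfy no such relation, and neither do all five numbers if `log π` is irrational (if `log π` is
rational, then `e ^ P(e)` and `π ^ P(e)` are multiplicatively dependent).  Again several random polynomials
may be taken together.

The proof of (1): among the `z(Q) = ∑ w_i Q(t_i)`, `deg Q < M`, where `w` is a nonzero vector, there are at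
least `(M - n + 1) / n` linearly independent ones over the algebraic numbers (Lagrange interpolation), and
at most `n (M / h + 2) + h ^ n` linearly independent linear forms in logarithms (product inequality of Roy
and Waldschmidt).  With a cube theorem of the library (`Pool.Agent.Y918.EL.mcubeR`) one needs in addition
that for random polynomials `Q_1, …, Q_R` and all nonzero vectors `γ ∈ ℂ^r` at the same time the numbers
`∑ γ_a v_(a,i) Q_j(t_i)` generate a space of dimension at least `K` over the algebraic numbers: this is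
`Pool.Agent.X231.EP.genpos`, by induction on the dimension of the space of the vectors `γ`, since the
exceptional vectors for the first `(r + 1) K` polynomials generate a smaller space.
-/

set_option autoImplicit false

namespace Pool.Agent.Results.MP_a49cf6_nt.RandomPolynomials

open Module

/-- `P(x)`, where `P` is the polynomial with the coefficients `p 0, …, p (k-1)`. -/
noncomputable def polyVal {k : ℕ} (p : Fin k → ℚ) (x : ℂ) : ℂ := ∑ r, (p r : ℂ) * x ^ (r : ℕ)

/-- `P(x)` for real `x`. -/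
noncomputable def polyValR {k : ℕ} (p : Fin k → ℚ) (x : ℝ) : ℝ := ∑ r, (p r : ℝ) * x ^ (r : ℕ)

/-- The numbers `x_i` satisfy no nonzero polynomial relation with coefficients in `W` of degree at most
`D` in each of them. -/
def NoRelationOver (W : Submodule (algebraicClosure ℚ ℂ) ℂ) (D : ℕ) {ι : Type} (x : ι → ℂ) : Prop :=
  ∀ p : MvPolynomial ι ℂ, (∀ s, p.coeff s ∈ W) → (∀ i, p.degreeOf i ≤ D) →
    MvPolynomial.eval x p = 0 → p = 0

/-- `ζ_a + ∑ v_(a,i) P(t_i)` for `a : Fin r` and `exp (ξ_l + ∑ u_(l,i) P(t_i))` for `l : Fin L`. -/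
noncomputable def numbers {n r L k : ℕ} (t : Fin n → ℂ) (v : Fin r → Fin n → ℂ)
    (u : Fin L → Fin n → ℂ) (ζ : Fin r → ℂ) (ξ : Fin L → ℂ) (p : Fin k → ℚ) : Fin r ⊕ Fin L → ℂ
  | Sum.inl a => ζ a + ∑ i, v a i * polyVal p (t i)
  | Sum.inr l => Complex.exp (ξ l + ∑ i, u l i * polyVal p (t i))

/-- `P(π) + P(e)`, `P(π) P(e)`, `π ^ P(π)`, `b ^ P(e)` -/
noncomputable def four {k : ℕ} (b : ℝ) (p : Fin k → ℚ) : Fin 4 → ℝ :=
  ![polyValR p Real.pi + polyValR p (Real.exp 1), polyValR p Real.pi * polyValR p (Real.exp 1),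
    Real.pi ^ polyValR p Real.pi, b ^ polyValR p (Real.exp 1)]

/-- `P(π) + P(e)`, `P(π) P(e)`, `π ^ P(π)`, `e ^ P(e)`, `π ^ P(e)` -/
noncomputable def five {k : ℕ} (p : Fin k → ℚ) : Fin 5 → ℝ :=
  ![polyValR p Real.pi + polyValR p (Real.exp 1), polyValR p Real.pi * polyValR p (Real.exp 1),
    Real.pi ^ polyValR p Real.pi, Real.exp 1 ^ polyValR p (Real.exp 1),
    Real.pi ^ polyValR p (Real.exp 1)]

open Pool.Agent.H301R2.SSE (QB mem_QB)
open Pool.Agent.Y918.GB (RelI)
open Pool.Agent.X231.EP (comb sp rel_sp)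

theorem noRel_iff (W : Submodule QB ℂ) (D : ℕ) {ι : Type} (x : ι → ℂ) :
    NoRelationOver W D x ↔ ¬ RelI W D x := by
  constructor
  · rintro h ⟨p, h0, h1, h2, h3⟩
    exact h0 (h p h1 h2 h3)
  · intro h p h1 h2 h3
    by_contra h0
    exact h ⟨p, h0, h1, h2, h3⟩

theorem rel_equiv {W : Submodule QB ℂ} {D : ℕ} {ι κ : Type} {x : ι → ℂ} {y : κ → ℂ} (e : ι ≃ κ)
    (hxy : ∀ i, y (e i) = x i) (h : RelI W D x) : RelI W D y := by
  obtain ⟨p, h0, h1, h2, h3⟩ := h
  refine ⟨MvPolynomial.rename e p, ?_, ?_, ?_, ?_⟩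
  · intro hh
    exact h0 ((MvPolynomial.rename_eq_zero_iff_of_injective p e.injective).1 hh)
  · intro M
    by_cases hM : ∃ u : ι →₀ ℕ, u.mapDomain e = M
    · obtain ⟨u, rfl⟩ := hM
      rw [MvPolynomial.coeff_rename_mapDomain _ e.injective]
      exact h1 u
    · rw [MvPolynomial.coeff_rename_eq_zero _ _ _ (fun u hu => absurd ⟨u, hu⟩ hM)]
      exact Submodule.zero_mem W
  · intro i
    obtain ⟨i, rfl⟩ := e.surjective i
    rw [MvPolynomial.degreeOf_rename_of_injective e.injective]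
    exact h2 i
  · rw [MvPolynomial.eval_rename]
    have : y ∘ e = x := funext hxy
    rw [this]
    exact h3

open Classical in
theorem general (m n r L D N : ℕ) (hn : 1 ≤ n) : ∃ (k₀ C : ℕ) (δ : ℝ), 0 < δ ∧ ∀ k ≥ k₀,
    ∀ (t : Fin m → Fin n → ℂ) (v : Fin m → Fin r → Fin n → ℂ) (u : Fin m → Fin L → Fin n → ℂ),
    (∀ j, Function.Injective (t j)) → (∀ j i, Transcendental ℚ (t j i)) →
    (∀ j, LinearIndependent ℂ (v j)) → (∀ j, LinearIndependent ℚ (u j)) →
    ∀ (ζ : Fin m → Fin r → ℂ) (ξ : Fin m → Fin L → ℂ) (A : Finset ℚ), A.Nonempty →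
    ∀ W : Submodule (algebraicClosure ℚ ℂ) ℂ, Module.Finite (algebraicClosure ℚ ℂ) W →
    finrank (algebraicClosure ℚ ℂ) W ≤ N →
    (((Fintype.piFinset fun _ : Fin m => Fintype.piFinset fun _ : Fin k => A).filter
      (fun P => ¬ NoRelationOver W D (fun q : Fin m × (Fin r ⊕ Fin L) =>
        numbers (t q.1) (v q.1) (u q.1) (ζ q.1) (ξ q.1) (P q.1) q.2))).card : ℝ) ≤
      C * (A.card : ℝ) ^ ((m * k : ℝ) - δ * k) := by
  obtain ⟨k₀, C, δ, hδ, h⟩ := Pool.Agent.X231.EP.manyR m n r L D N hn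
  refine ⟨k₀, C, δ, hδ, fun k hk t v u ht htr hv hu ζ ξ A hA W hW hWN => ?_⟩
  refine le_trans (Nat.cast_le.2 (Finset.card_le_card ?_)) (h k hk t v u ht htr hv hu A hA W hW hWN ζ ξ)
  intro P hP
  rw [Finset.mem_filter] at hP ⊢
  refine ⟨hP.1, ?_⟩
  have h1 := hP.2
  rw [noRel_iff, not_not] at h1
  convert h1 using 2 with q
  rcases q with ⟨j, a | l⟩
  · rfl
  · rfl

theorem polyVal_real {k : ℕ} (p : Fin k → ℚ) (x : ℝ) :
    ((polyValR p x : ℝ) : ℂ) = ∑ r, (p r : ℂ) * (x : ℂ) ^ (r : ℕ) := by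
  unfold polyValR
  push_cast
  rfl

theorem rpow_cast {b : ℝ} (hb : 0 < b) (y : ℝ) :
    ((b ^ y : ℝ) : ℂ) = Complex.exp ((Real.log b : ℂ) * (y : ℂ)) := by
  rw [Real.rpow_def_of_pos hb]
  push_cast
  rfl

/-- The points `π`, `e`. -/
noncomputable def pe : Fin 2 → ℂ := ![(Real.pi : ℂ), (Real.exp 1 : ℂ)]

theorem pe_inj : Function.Injective pe := by
  have h : (Real.pi : ℂ) ≠ (Real.exp 1 : ℂ) := by
    intro h
    have h1 : Real.pi = Real.exp 1 := by exact_mod_cast h
    have h2 := Real.pi_gt_three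
    have h3 := Real.exp_one_lt_d9
    norm_num at h3
    linarith
  intro i j hij
  fin_cases i <;> fin_cases j
  · rfl
  · exact absurd hij h
  · exact absurd hij.symm h
  · rfl

theorem pe_tr (i : Fin 2) : Transcendental ℚ (pe i) := by
  fin_cases i
  · exact Pool.Agent.H340R2.LW.transcendental_pi_complex
  · have := Pool.Agent.H340R2.LW.transcendental_exp_one_complex
    change Transcendental ℚ ((Real.exp 1 : ℝ) : ℂ)
    rw [Complex.ofReal_exp, Complex.ofReal_one]
    exact this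

theorem comb_pe {k : ℕ} (w : Fin 2 → ℂ) (p : Fin k → ℚ) :
    comb pe w p = w 0 * (polyValR p Real.pi : ℂ) + w 1 * (polyValR p (Real.exp 1) : ℂ) := by
  unfold comb
  rw [Fin.sum_univ_two, polyVal_real, polyVal_real]
  rfl

theorem log_pi_ne : (Real.log Real.pi : ℂ) ≠ 0 := by
  have h := Real.log_pos (by linarith [Real.pi_gt_three] : (1 : ℝ) < Real.pi)
  exact_mod_cast h.ne'

theorem logb_ne (c : Bool) : (Real.log (if c then Real.exp 1 else Real.pi) : ℂ) ≠ 0 := by
  rcases c with _ | _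
  · simpa using log_pi_ne
  · simp

/-- The weights for the exponents. -/
noncomputable def u3 (c : Bool) : Fin 2 → Fin 2 → ℂ :=
  ![![(Real.log Real.pi : ℂ), 0], ![0, (Real.log (if c then Real.exp 1 else Real.pi) : ℂ)]]

theorem u3_li (c : Bool) : LinearIndependent ℚ (u3 c) := by
  rw [Fintype.linearIndependent_iff]
  intro g hg
  have h0 := congrFun hg 0
  have h1 := congrFun hg 1
  rw [Fin.sum_univ_two] at h0 h1
  simp only [u3, Pi.add_apply, Pi.smul_apply, Rat.smul_def, Matrix.cons_val_zero,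
    Matrix.cons_val_one, Pi.zero_apply, mul_zero, add_zero, zero_add] at h0 h1
  have e0 := (mul_eq_zero.1 h0).resolve_right log_pi_ne
  have e1 := (mul_eq_zero.1 h1).resolve_right (logb_ne c)
  intro i
  fin_cases i
  · exact_mod_cast e0
  · exact_mod_cast e1

/-- The weights for the three exponents. -/
noncomputable def u4 : Fin 3 → Fin 2 → ℂ :=
  ![![(Real.log Real.pi : ℂ), 0], ![0, 1], ![0, (Real.log Real.pi : ℂ)]]

theorem u4_li (h : Irrational (Real.log Real.pi)) : LinearIndependent ℚ u4 := by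
  rw [Fintype.linearIndependent_iff]
  intro g hg
  have h0 := congrFun hg 0
  have h1 := congrFun hg 1
  rw [Fin.sum_univ_three] at h0 h1
  simp only [u4, Pi.add_apply, Pi.smul_apply, Rat.smul_def, Matrix.cons_val_zero,
    Matrix.cons_val_one, Matrix.cons_val_two, Matrix.head_cons, Matrix.tail_cons, Pi.zero_apply,
    mul_zero, add_zero, zero_add, mul_one] at h0 h1
  have e0 := (mul_eq_zero.1 h0).resolve_right log_pi_ne
  have e2 : g 2 = 0 := by
    by_contra hne
    apply h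
    refine ⟨-(g 1) / g 2, ?_⟩
    have h3 : (g 2 : ℂ) ≠ 0 := by exact_mod_cast hne
    have h4 : (Real.log Real.pi : ℂ) = ((-(g 1) / g 2 : ℚ) : ℂ) := by
      push_cast
      rw [eq_div_iff h3]
      linear_combination h1
    have h5 : ((Real.log Real.pi : ℝ) : ℂ) = (((-(g 1) / g 2 : ℚ) : ℝ) : ℂ) := by
      rw [h4]
      push_cast
      rfl
    exact (Complex.ofReal_injective h5).symm
  have e1 : (g 1 : ℂ) = 0 := by
    rw [e2] at h1
    simpa using h1
  intro i
  fin_cases i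
  · exact_mod_cast e0
  · exact_mod_cast e1
  · exact e2

/-- The unit vectors. -/
noncomputable def v0 : Fin 2 → Fin 2 → ℂ := ![![1, 0], ![0, 1]]

theorem v0_li : LinearIndependent ℂ v0 := by
  rw [Fintype.linearIndependent_iff]
  intro g hg
  have h0 := congrFun hg 0
  have h1 := congrFun hg 1
  rw [Fin.sum_univ_two] at h0 h1
  simp only [v0, Pi.add_apply, Pi.smul_apply, smul_eq_mul, Matrix.cons_val_zero,
    Matrix.cons_val_one, Pi.zero_apply, mul_zero, add_zero, zero_add, mul_one] at h0 h1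
  intro i
  fin_cases i
  · exact h0
  · exact h1

/-- `P(π)`, `P(e)`, `π ^ P(π)`, `b ^ P(e)` -/
noncomputable def base4 {k : ℕ} (b : ℝ) (p : Fin k → ℚ) : Fin 4 → ℝ :=
  ![polyValR p Real.pi, polyValR p (Real.exp 1), Real.pi ^ polyValR p Real.pi,
    b ^ polyValR p (Real.exp 1)]

/-- `P(π)`, `P(e)`, `π ^ P(π)`, `e ^ P(e)`, `π ^ P(e)` -/
noncomputable def base5 {k : ℕ} (p : Fin k → ℚ) : Fin 5 → ℝ :=
  ![polyValR p Real.pi, polyValR p (Real.exp 1), Real.pi ^ polyValR p Real.pi,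
    Real.exp 1 ^ polyValR p (Real.exp 1), Real.pi ^ polyValR p (Real.exp 1)]

/-- `Fin 4 ≃ Fin 2 ⊕ Fin 2` -/
def e4 (m : ℕ) : Fin m × Fin 4 ≃ Fin m × (Fin 2 ⊕ Fin 2) :=
  Equiv.prodCongr (Equiv.refl _) (finSumFinEquiv (m := 2) (n := 2)).symm

/-- `Fin 5 ≃ Fin 2 ⊕ Fin 3` -/
def e5 (m : ℕ) : Fin m × Fin 5 ≃ Fin m × (Fin 2 ⊕ Fin 3) :=
  Equiv.prodCongr (Equiv.refl _) (finSumFinEquiv (m := 2) (n := 3)).symm

open Classical in
theorem special4 (m D N : ℕ) : ∃ (k₀ C : ℕ) (δ : ℝ), 0 < δ ∧ ∀ k ≥ k₀,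
    ∀ A : Finset ℚ, A.Nonempty →
    ∀ W : Submodule QB ℂ, Module.Finite QB W → finrank QB W ≤ N → ∀ c : Fin m → Bool,
    (((Fintype.piFinset fun _ : Fin m => Fintype.piFinset fun _ : Fin k => A).filter
      (fun P => ¬ NoRelationOver W D (fun q : Fin m × Fin 4 =>
        ((four (if c q.1 then Real.exp 1 else Real.pi) (P q.1) q.2 : ℝ) : ℂ)))).card : ℝ) ≤
      C * (A.card : ℝ) ^ ((m * k : ℝ) - δ * k) := by
  obtain ⟨k₀, C, δ, hδ, h⟩ := Pool.Agent.X231.EP.manyR m 2 2 2 (2 * D) N (by norm_num)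
  refine ⟨k₀, C, δ, hδ, fun k hk A hA W hW hWN c => ?_⟩
  refine le_trans (Nat.cast_le.2 (Finset.card_le_card ?_)) (h k hk (fun _ => pe) (fun _ => v0)
    (fun j => u3 (c j)) (fun _ => pe_inj) (fun _ => pe_tr) (fun _ => v0_li) (fun j => u3_li (c j))
    A hA W hW hWN (fun _ _ => 0) (fun _ _ => 0))
  intro P hP
  rw [Finset.mem_filter] at hP ⊢
  refine ⟨hP.1, ?_⟩
  have h1 := hP.2
  rw [noRel_iff, not_not] at h1
  let x : Fin m × Fin (2 + 2) → ℂ := fun q =>
    ((base4 (if c q.1 then Real.exp 1 else Real.pi) (P q.1) q.2 : ℝ) : ℂ)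
  have hx : (fun q : Fin m × Fin 4 =>
      ((four (if c q.1 then Real.exp 1 else Real.pi) (P q.1) q.2 : ℝ) : ℂ)) = sp x := by
    funext q
    obtain ⟨j, i⟩ := q
    fin_cases i
    · change ((polyValR (P j) Real.pi + polyValR (P j) (Real.exp 1) : ℝ) : ℂ) =
        (polyValR (P j) Real.pi : ℂ) + (polyValR (P j) (Real.exp 1) : ℂ)
      push_cast
      rfl
    · change ((polyValR (P j) Real.pi * polyValR (P j) (Real.exp 1) : ℝ) : ℂ) =
        (polyValR (P j) Real.pi : ℂ) * (polyValR (P j) (Real.exp 1) : ℂ)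
      push_cast
      rfl
    · rfl
    · rfl
  rw [hx] at h1
  refine rel_equiv (e4 m) ?_ (rel_sp h1)
  rintro ⟨j, s⟩
  have hb : (0 : ℝ) < (if c j then Real.exp 1 else Real.pi) := by
    split_ifs
    · exact Real.exp_pos 1
    · exact Real.pi_pos
  fin_cases s
  · change 0 + comb pe (v0 0) (P j) = ((polyValR (P j) Real.pi : ℝ) : ℂ)
    rw [comb_pe]
    simp only [v0, Matrix.cons_val_zero, Matrix.cons_val_one]
    ring
  · change 0 + comb pe (v0 1) (P j) = ((polyValR (P j) (Real.exp 1) : ℝ) : ℂ)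
    rw [comb_pe]
    simp only [v0, Matrix.cons_val_zero, Matrix.cons_val_one]
    ring
  · change Complex.exp (0 + comb pe (u3 (c j) 0) (P j)) = ((Real.pi ^ polyValR (P j) Real.pi : ℝ) : ℂ)
    rw [comb_pe, rpow_cast Real.pi_pos]
    simp only [u3, Matrix.cons_val_zero, Matrix.cons_val_one]
    congr 1
    ring
  · change Complex.exp (0 + comb pe (u3 (c j) 1) (P j)) =
      (((if c j then Real.exp 1 else Real.pi) ^ polyValR (P j) (Real.exp 1) : ℝ) : ℂ)
    rw [comb_pe, rpow_cast hb]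
    simp only [u3, Matrix.cons_val_zero, Matrix.cons_val_one]
    congr 1
    ring

open Classical in
theorem special5 (m D N : ℕ) (hirr : Irrational (Real.log Real.pi)) :
    ∃ (k₀ C : ℕ) (δ : ℝ), 0 < δ ∧ ∀ k ≥ k₀,
    ∀ A : Finset ℚ, A.Nonempty →
    ∀ W : Submodule QB ℂ, Module.Finite QB W → finrank QB W ≤ N →
    (((Fintype.piFinset fun _ : Fin m => Fintype.piFinset fun _ : Fin k => A).filter
      (fun P => ¬ NoRelationOver W D (fun q : Fin m × Fin 5 =>
        ((five (P q.1) q.2 : ℝ) : ℂ)))).card : ℝ) ≤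
      C * (A.card : ℝ) ^ ((m * k : ℝ) - δ * k) := by
  obtain ⟨k₀, C, δ, hδ, h⟩ := Pool.Agent.X231.EP.manyR m 2 2 3 (2 * D) N (by norm_num)
  refine ⟨k₀, C, δ, hδ, fun k hk A hA W hW hWN => ?_⟩
  refine le_trans (Nat.cast_le.2 (Finset.card_le_card ?_)) (h k hk (fun _ => pe) (fun _ => v0)
    (fun j => u4) (fun _ => pe_inj) (fun _ => pe_tr) (fun _ => v0_li) (fun j => u4_li hirr)
    A hA W hW hWN (fun _ _ => 0) (fun _ _ => 0))
  intro P hP
  rw [Finset.mem_filter] at hP ⊢
  refine ⟨hP.1, ?_⟩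
  have h1 := hP.2
  rw [noRel_iff, not_not] at h1
  let x : Fin m × Fin (3 + 2) → ℂ := fun q => ((base5 (P q.1) q.2 : ℝ) : ℂ)
  have hx : (fun q : Fin m × Fin 5 => ((five (P q.1) q.2 : ℝ) : ℂ)) = sp x := by
    funext q
    obtain ⟨j, i⟩ := q
    fin_cases i
    · change ((polyValR (P j) Real.pi + polyValR (P j) (Real.exp 1) : ℝ) : ℂ) =
        (polyValR (P j) Real.pi : ℂ) + (polyValR (P j) (Real.exp 1) : ℂ)
      push_cast
      rfl
    · change ((polyValR (P j) Real.pi * polyValR (P j) (Real.exp 1) : ℝ) : ℂ) =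
        (polyValR (P j) Real.pi : ℂ) * (polyValR (P j) (Real.exp 1) : ℂ)
      push_cast
      rfl
    · rfl
    · rfl
    · rfl
  rw [hx] at h1
  refine rel_equiv (e5 m) ?_ (rel_sp h1)
  rintro ⟨j, s⟩
  fin_cases s
  · change 0 + comb pe (v0 0) (P j) = ((polyValR (P j) Real.pi : ℝ) : ℂ)
    rw [comb_pe]
    simp only [v0, Matrix.cons_val_zero, Matrix.cons_val_one]
    ring
  · change 0 + comb pe (v0 1) (P j) = ((polyValR (P j) (Real.exp 1) : ℝ) : ℂ)
    rw [comb_pe]
    simp only [v0, Matrix.cons_val_zero, Matrix.cons_val_one]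
    ring
  · change Complex.exp (0 + comb pe (u4 0) (P j)) = ((Real.pi ^ polyValR (P j) Real.pi : ℝ) : ℂ)
    rw [comb_pe, rpow_cast Real.pi_pos]
    simp only [u4, Matrix.cons_val_zero, Matrix.cons_val_one]
    congr 1
    ring
  · change Complex.exp (0 + comb pe (u4 1) (P j)) =
      ((Real.exp 1 ^ polyValR (P j) (Real.exp 1) : ℝ) : ℂ)
    rw [comb_pe, rpow_cast (Real.exp_pos 1), Real.log_exp]
    simp only [u4, Matrix.cons_val_zero, Matrix.cons_val_one]
    congr 1
    push_cast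
    ring
  · change Complex.exp (0 + comb pe (u4 2) (P j)) =
      ((Real.pi ^ polyValR (P j) (Real.exp 1) : ℝ) : ℂ)
    rw [comb_pe, rpow_cast Real.pi_pos]
    simp only [u4, Matrix.cons_val_zero, Matrix.cons_val_one, Matrix.cons_val_two,
      Matrix.head_cons, Matrix.tail_cons]
    congr 1
    ring

open Classical in
/-- **Random polynomials at `π` and `e`.** -/
theorem result (m n r L D N : ℕ) (hn : 1 ≤ n) :
    (∃ (k₀ C : ℕ) (δ : ℝ), 0 < δ ∧ ∀ k ≥ k₀,
      ∀ (t : Fin m → Fin n → ℂ) (v : Fin m → Fin r → Fin n → ℂ) (u : Fin m → Fin L → Fin n → ℂ),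
      (∀ j, Function.Injective (t j)) → (∀ j i, Transcendental ℚ (t j i)) →
      (∀ j, LinearIndependent ℂ (v j)) → (∀ j, LinearIndependent ℚ (u j)) →
      ∀ (ζ : Fin m → Fin r → ℂ) (ξ : Fin m → Fin L → ℂ) (A : Finset ℚ), A.Nonempty →
      ∀ W : Submodule (algebraicClosure ℚ ℂ) ℂ, Module.Finite (algebraicClosure ℚ ℂ) W →
      finrank (algebraicClosure ℚ ℂ) W ≤ N →
      (((Fintype.piFinset fun _ : Fin m => Fintype.piFinset fun _ : Fin k => A).filter
        (fun P => ¬ NoRelationOver W D (fun q : Fin m × (Fin r ⊕ Fin L) =>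
          numbers (t q.1) (v q.1) (u q.1) (ζ q.1) (ξ q.1) (P q.1) q.2))).card : ℝ) ≤
        C * (A.card : ℝ) ^ ((m * k : ℝ) - δ * k)) ∧
    (∃ (k₀ C : ℕ) (δ : ℝ), 0 < δ ∧ ∀ k ≥ k₀, ∀ A : Finset ℚ, A.Nonempty →
      ∀ W : Submodule (algebraicClosure ℚ ℂ) ℂ, Module.Finite (algebraicClosure ℚ ℂ) W →
      finrank (algebraicClosure ℚ ℂ) W ≤ N →
      (∀ c : Fin m → Bool,
        (((Fintype.piFinset fun _ : Fin m => Fintype.piFinset fun _ : Fin k => A).filter
          (fun P => ¬ NoRelationOver W D (fun q : Fin m × Fin 4 =>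
            ((four (if c q.1 then Real.exp 1 else Real.pi) (P q.1) q.2 : ℝ) : ℂ)))).card : ℝ) ≤
          C * (A.card : ℝ) ^ ((m * k : ℝ) - δ * k)) ∧
      (Irrational (Real.log Real.pi) →
        (((Fintype.piFinset fun _ : Fin m => Fintype.piFinset fun _ : Fin k => A).filter
          (fun P => ¬ NoRelationOver W D (fun q : Fin m × Fin 5 =>
            ((five (P q.1) q.2 : ℝ) : ℂ)))).card : ℝ) ≤
          C * (A.card : ℝ) ^ ((m * k : ℝ) - δ * k))) := by
  refine ⟨general m n r L D N hn, ?_⟩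
  obtain ⟨k₁, C₁, δ₁, hδ₁, h₁⟩ := special4 m D N
  by_cases hirr : Irrational (Real.log Real.pi)
  · obtain ⟨k₂, C₂, δ₂, hδ₂, h₂⟩ := special5 m D N hirr
    have mono : ∀ (C C' : ℕ) (δ δ' : ℝ) (k : ℕ) (A : Finset ℚ), A.Nonempty → C ≤ C' → δ' ≤ δ →
        (C : ℝ) * (A.card : ℝ) ^ ((m * k : ℝ) - δ * k) ≤
          (C' : ℝ) * (A.card : ℝ) ^ ((m * k : ℝ) - δ' * k) := by
      intro C C' δ δ' k A hA hC hδ
      have ha : (1 : ℝ) ≤ A.card := by exact_mod_cast hA.card_pos
      have hk : (0 : ℝ) ≤ k := Nat.cast_nonneg k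
      have h1 : (m * k : ℝ) - δ * k ≤ (m * k : ℝ) - δ' * k := by nlinarith
      have h2 := Real.rpow_le_rpow_of_exponent_le ha h1
      have h3 : (C : ℝ) ≤ C' := by exact_mod_cast hC
      exact mul_le_mul h3 h2 (by positivity) (by positivity)
    refine ⟨max k₁ k₂, max C₁ C₂, min δ₁ δ₂, lt_min hδ₁ hδ₂, fun k hk A hA W hW hWN => ⟨?_, ?_⟩⟩
    · intro c
      exact (h₁ k ((le_max_left _ _).trans hk) A hA W hW hWN c).trans
        (mono _ _ _ _ k A hA (le_max_left _ _) (min_le_left _ _))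
    · intro _
      exact (h₂ k ((le_max_right _ _).trans hk) A hA W hW hWN).trans
        (mono _ _ _ _ k A hA (le_max_right _ _) (min_le_right _ _))
  · exact ⟨k₁, C₁, δ₁, hδ₁, fun k hk A hA W hW hWN => ⟨h₁ k hk A hA W hW hWN,
      fun h => absurd h hirr⟩⟩

end Pool.Agent.Results.MP_a49cf6_nt.RandomPolynomials
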