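import Pool.Agent.H364R2.PiE
import Pool.Agent.H297R2.Density

/-!
# The five numbers for the constants `n π` and `n e`

For all `n ≤ N` with at most `(log₂ N + 1) ^ 2 + 2 (log₂ N + 1)` exceptions, at least four of the
five numbers `n π + n e`, `(n π) (n e)`, `(n π) ^ (n e)`, `(n e) ^ (n e)`, `(n π) ^ (n π)` are
transcendental (the case `n = 1` is the question). The tools are the strong six exponentials theorem
and Baker's theorem.
-/

set_option autoImplicit false

namespace Pool.Agent.Results.MP_a49cf6_nt.ScaledConstants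

open Finset Pool.Agent.H340R2.LW Pool.Agent.H301R2.SSE Pool.Agent.H364R2.PiE

/-- The space of all `x` with `x` and `θ x` in the span of `1` and the logarithms of algebraic
numbers has dimension at most two. -/
theorem dim_two {θ : ℂ} (hθ : Transcendental ℚ θ) (x : Fin 3 → ℂ) (hx : ∀ i, x i ∈ Lt)
    (hx' : ∀ i, θ * x i ∈ Lt) :
    ∃ c : Fin 3 → ℂ, (∀ i, IsAlgebraic ℚ (c i)) ∧ (∑ i, c i * x i = 0) ∧ ∃ i, c i ≠ 0 := by
  by_contra hcon
  push Not at hcon
  refine strong_six ![1, θ] x ?_ ?_ ?_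
  · intro a b ha hb h
    simp only [Matrix.cons_val_zero, Matrix.cons_val_one, mul_one] at h
    by_cases hb0 : b = 0
    · subst hb0; simpa using h
    · exfalso
      apply hθ
      have : θ = -a * b⁻¹ := by
        field_simp
        linear_combination h
      rw [this]
      exact ha.neg.mul hb.inv
  · intro c hc h j
    exact hcon c hc h j
  · intro i j
    fin_cases i
    · simpa using hx j
    · simpa using hx' j

/-- Baker's theorem for logarithms of integers -/
theorem baker_nat {m : ℕ} (n : Fin m → ℕ) (c₀ : ℂ) (hc₀ : IsAlgebraic ℚ c₀)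
    (c : Fin m → ℂ) (hc : ∀ i, IsAlgebraic ℚ (c i))
    (h : c₀ + ∑ i, c i * ((Real.log (n i) : ℝ) : ℂ) = 0) :
    c₀ = 0 ∧ ∀ p : ℕ, ∑ i, c i * (((n i).factorization p : ℕ) : ℂ) = 0 := by
  classical
  let P : Finset ℕ := univ.biUnion fun i => (n i).primeFactors
  have hP : ∀ p ∈ P, p.Prime := by
    intro p hp
    obtain ⟨i, -, hi⟩ := mem_biUnion.mp hp
    exact Nat.prime_of_mem_primeFactors hi
  have hlog : ∀ i, ((Real.log (n i) : ℝ) : ℂ) =
      ∑ p : {p // p ∈ P}, (((n i).factorization p : ℕ) : ℂ) * ((Real.log (p : ℕ) : ℝ) : ℂ) := by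
    intro i
    have h1 : Real.log (n i) = ∑ p ∈ P, ((n i).factorization p : ℝ) * Real.log p := by
      rw [Real.log_nat_eq_sum_factorization]
      apply Finsupp.sum_of_support_subset
      · intro p hp
        exact mem_biUnion.mpr ⟨i, mem_univ _, by simpa using hp⟩
      · intro p _
        simp
    rw [h1, Finset.sum_coe_sort P (fun p : ℕ => (((n i).factorization p : ℕ) : ℂ) *
      ((Real.log (p : ℕ) : ℝ) : ℂ))]
    push_cast
    rfl
  have hb := Pool.Agent.H297R2.baker_inhom (ι := {p // p ∈ P})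
    (fun p => ((Real.log ((p : ℕ) : ℝ) : ℝ) : ℂ)) (by
      intro p
      have hp : (0 : ℝ) < ((p : ℕ) : ℝ) := by exact_mod_cast (hP _ p.2).pos
      change IsAlgebraic ℚ (Complex.exp ((Real.log ((p : ℕ) : ℝ) : ℝ) : ℂ))
      rw [← Complex.ofReal_exp, Real.exp_log hp]
      have : (((p : ℕ) : ℝ) : ℂ) = ((p : ℕ) : ℂ) := by push_cast; rfl
      rw [this]
      exact isAlgebraic_natCast _)
    (Pool.Agent.H297R2.linearIndependent_log_prime (fun p : {p // p ∈ P} => (p : ℕ))
      (fun p => hP _ p.2) Subtype.val_injective) c₀ hc₀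
    (fun p => ∑ i, c i * (((n i).factorization p : ℕ) : ℂ)) (by
      intro p
      exact mem_QB.mp (sum_mem fun i _ => mem_QB.mpr ((hc i).mul (isAlgebraic_natCast _)))) (by
      rw [← h]
      congr 1
      simp only [hlog, sum_mul, mul_sum]
      rw [sum_comm]
      refine sum_congr rfl fun i _ => sum_congr rfl fun p _ => ?_
      ring)
  refine ⟨hb.1, fun p => ?_⟩
  by_cases hp : p ∈ P
  · exact hb.2 ⟨p, hp⟩
  · apply sum_eq_zero
    intro i _
    have : p ∉ (n i).primeFactors := fun hh => hp (mem_biUnion.mpr ⟨i, mem_univ _, hh⟩)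
    have h0 : (n i).factorization p = 0 := by
      rw [← Finsupp.notMem_support_iff]
      simpa using this
    rw [h0]; simp

theorem fac_le (N n p : ℕ) (h0 : n ≠ 0) (hN : n ≤ N) : n.factorization p ≤ Nat.log 2 N := by
  by_cases hp : p.Prime
  · have h1 : p ^ n.factorization p ≤ n := Nat.le_of_dvd (Nat.pos_of_ne_zero h0)
      (Nat.ordProj_dvd n p)
    have h2 : 2 ^ n.factorization p ≤ n := (Nat.pow_le_pow_left hp.two_le _).trans h1
    exact Nat.le_log_of_pow_le (by norm_num) (h2.trans hN)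
  · rw [Nat.factorization_eq_zero_of_not_prime _ hp]
    exact Nat.zero_le _

/-- affine dependence of the exponent vectors -/
def Rel {m : ℕ} (n : Fin m → ℕ) : Prop :=
  ∃ c : Fin m → ℂ, (∑ i, c i = 0) ∧ (∃ i, c i ≠ 0) ∧
    ∀ p : ℕ, ∑ i, c i * (((n i).factorization p : ℕ) : ℂ) = 0

theorem line (N : ℕ) (A : Finset ℕ) (hA : ∀ n ∈ A, n ≠ 0 ∧ n ≤ N)
    (h : ∀ n : Fin 3 → ℕ, (∀ i, n i ∈ A) → Rel n) : A.card ≤ Nat.log 2 N + 1 := by
  classical
  by_cases hc : A.card ≤ 1
  · omega
  push Not at hc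
  obtain ⟨a, ha, b, hb, hab⟩ := Finset.one_lt_card.mp hc
  have hne : a.factorization ≠ b.factorization := fun hh =>
    hab (Nat.eq_of_factorization_eq (hA a ha).1 (hA b hb).1 fun p => by rw [hh])
  obtain ⟨p, hp⟩ := Finsupp.ne_iff.mp hne
  have key : ∀ x ∈ A, ∀ y ∈ A, ∀ z ∈ A, y.factorization p = z.factorization p → y ≠ z →
      x.factorization p = y.factorization p := by
    intro x hx y hy z hz hyz hne
    obtain ⟨c, h1, h2, h3⟩ := h ![x, y, z] (by intro i; fin_cases i <;> assumption)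
    rw [Fin.sum_univ_three] at h1
    have h3' : ∀ q : ℕ, c 0 * ((x.factorization q : ℕ) : ℂ) + c 1 * ((y.factorization q : ℕ) : ℂ)
        + c 2 * ((z.factorization q : ℕ) : ℂ) = 0 := by
      intro q
      have := h3 q
      rw [Fin.sum_univ_three] at this
      simpa using this
    by_cases h0 : c 0 = 0
    · exfalso
      have h12 : c 2 = -c 1 := by rw [h0] at h1; linear_combination h1
      have h11 : c 1 ≠ 0 := by
        intro h11
        obtain ⟨i, hi⟩ := h2
        fin_cases i
        · exact hi h0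
        · exact hi h11
        · apply hi; change c 2 = 0; rw [h12, h11, neg_zero]
      apply hne
      apply Nat.eq_of_factorization_eq (hA y hy).1 (hA z hz).1
      intro q
      have h4 := h3' q
      rw [h0, h12] at h4
      have h5 : c 1 * (((y.factorization q : ℕ) : ℂ) - ((z.factorization q : ℕ) : ℂ)) = 0 := by
        linear_combination h4
      have h6 := (mul_eq_zero.mp h5).resolve_left h11
      have h7 := sub_eq_zero.mp h6
      exact_mod_cast h7
    · have h4 := h3' p
      rw [← hyz] at h4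
      have h5 : c 0 * (((x.factorization p : ℕ) : ℂ) - ((y.factorization p : ℕ) : ℂ)) = 0 := by
        linear_combination h4 - ((y.factorization p : ℕ) : ℂ) * h1
      have h6 := (mul_eq_zero.mp h5).resolve_left h0
      have h7 := sub_eq_zero.mp h6
      exact_mod_cast h7
  have hinj : Set.InjOn (fun n : ℕ => n.factorization p) (A : Set ℕ) := by
    intro y hy z hz hyz
    by_contra hne
    have h1 := key a ha y hy z hz hyz hne
    have h2 := key b hb y hy z hz hyz hne
    exact hp (h1.trans h2.symm)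
  have h1 : A.card ≤ (range (Nat.log 2 N + 1)).card := by
    apply card_le_card_of_injOn (fun n : ℕ => n.factorization p)
    · intro n hn
      have := fac_le N n p (hA n hn).1 (hA n hn).2
      simp only [coe_range, Set.mem_Iio]
      omega
    · exact hinj
  simpa using h1

theorem plane (N : ℕ) (A : Finset ℕ) (hA : ∀ n ∈ A, n ≠ 0 ∧ n ≤ N)
    (h : ∀ n : Fin 4 → ℕ, (∀ i, n i ∈ A) → Rel n) : A.card ≤ (Nat.log 2 N + 1) ^ 2 := by
  classical
  by_cases hl : ∀ n : Fin 3 → ℕ, (∀ i, n i ∈ A) → Rel n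
  · have := line N A hA hl
    nlinarith
  push Not at hl
  obtain ⟨n, hn, hnr⟩ := hl
  set va : ℕ → ℂ := fun q => (((n 1).factorization q : ℕ) : ℂ) - (((n 0).factorization q : ℕ) : ℂ)
    with hva
  set vb : ℕ → ℂ := fun q => (((n 2).factorization q : ℕ) : ℂ) - (((n 0).factorization q : ℕ) : ℂ)
    with hvb
  have hind : ∀ s t : ℂ, (∀ q, s * va q + t * vb q = 0) → s = 0 ∧ t = 0 := by
    intro s t hst
    by_contra hcon
    apply hnr
    refine ⟨![-s - t, s, t], ?_, ?_, ?_⟩
    · rw [Fin.sum_univ_three]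
      simp only [Matrix.cons_val_zero, Matrix.cons_val_one, Matrix.cons_val]
      ring
    · by_contra h1
      push Not at h1
      exact hcon ⟨by simpa using h1 1, by simpa using h1 2⟩
    · intro q
      have := hst q
      rw [Fin.sum_univ_three]
      simp only [Matrix.cons_val_zero, Matrix.cons_val_one, Matrix.cons_val, hva, hvb] at this ⊢
      linear_combination this
  obtain ⟨p, q, hpq⟩ : ∃ p q, va p * vb q - va q * vb p ≠ 0 := by
    by_contra hcon
    push Not at hcon
    by_cases ha : ∀ p, va p = 0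
    · have := (hind 1 0 (by intro q; rw [ha q]; ring)).1
      exact one_ne_zero this
    · push Not at ha
      obtain ⟨p, hp⟩ := ha
      have := (hind (-(vb p)) (va p) (by
        intro q
        linear_combination hcon p q)).2
      exact hp this
  have hrep : ∀ m ∈ A, ∃ s t : ℂ, ∀ r,
      ((m.factorization r : ℕ) : ℂ) - (((n 0).factorization r : ℕ) : ℂ) = s * va r + t * vb r := by
    intro m hm
    obtain ⟨c, h1, h2, h3⟩ := h ![n 0, n 1, n 2, m] (by
      intro i
      fin_cases i
      · exact hn 0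
      · exact hn 1
      · exact hn 2
      · exact hm)
    rw [Fin.sum_univ_four] at h1
    have h3' : ∀ r : ℕ, c 0 * (((n 0).factorization r : ℕ) : ℂ)
        + c 1 * (((n 1).factorization r : ℕ) : ℂ) + c 2 * (((n 2).factorization r : ℕ) : ℂ)
        + c 3 * ((m.factorization r : ℕ) : ℂ) = 0 := by
      intro r
      have := h3 r
      rw [Fin.sum_univ_four] at this
      simpa using this
    have hc3 : c 3 ≠ 0 := by
      intro hc3
      obtain ⟨h4, h5⟩ := hind (c 1) (c 2) (by
        intro r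
        have := h3' r
        rw [hc3] at this h1
        simp only [hva, hvb]
        linear_combination this - (((n 0).factorization r : ℕ) : ℂ) * h1)
      obtain ⟨i, hi⟩ := h2
      fin_cases i
      · apply hi
        change c 0 = 0
        rw [hc3, h4, h5] at h1
        linear_combination h1
      · exact hi h4
      · exact hi h5
      · exact hi hc3
    refine ⟨-(c 1) / c 3, -(c 2) / c 3, fun r => ?_⟩
    have := h3' r
    simp only [hva, hvb]
    field_simp
    linear_combination this - (((n 0).factorization r : ℕ) : ℂ) * h1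
  have h1 : A.card ≤ (range (Nat.log 2 N + 1) ×ˢ range (Nat.log 2 N + 1)).card := by
    apply card_le_card_of_injOn (fun n : ℕ => (n.factorization p, n.factorization q))
    · intro m hm
      have h2 := fac_le N m p (hA m hm).1 (hA m hm).2
      have h3 := fac_le N m q (hA m hm).1 (hA m hm).2
      simp only [coe_product, coe_range, Set.mem_prod, Set.mem_Iio]
      omega
    · intro y hy z hz hyz
      simp only [Prod.mk.injEq] at hyz
      obtain ⟨s, t, hst⟩ := hrep y hy
      obtain ⟨s', t', hst'⟩ := hrep z hz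
      have e1 : (s - s') * va p + (t - t') * vb p = 0 := by
        have h2 := hst p
        have h3 := hst' p
        rw [hyz.1] at h2
        linear_combination h3 - h2
      have e2 : (s - s') * va q + (t - t') * vb q = 0 := by
        have h2 := hst q
        have h3 := hst' q
        rw [hyz.2] at h2
        linear_combination h3 - h2
      have e3 : (s - s') * (va p * vb q - va q * vb p) = 0 := by
        linear_combination vb q * e1 - vb p * e2
      have e4 : (t - t') * (va p * vb q - va q * vb p) = 0 := by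
        linear_combination va p * e2 - va q * e1
      have e5 := (mul_eq_zero.mp e3).resolve_right hpq
      have e6 := (mul_eq_zero.mp e4).resolve_right hpq
      apply Nat.eq_of_factorization_eq (hA y hy).1 (hA z hz).1
      intro r
      have h2 := hst r
      have h3 := hst' r
      have h4 : ((y.factorization r : ℕ) : ℂ) = ((z.factorization r : ℕ) : ℂ) := by
        linear_combination h2 - h3 + va r * e5 + vb r * e6
      exact_mod_cast h4
  rw [card_product, card_range, ← pow_two] at h1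
  exact h1

theorem Lt_log_nat (n : ℕ) (hn : n ≠ 0) : ((Real.log n : ℝ) : ℂ) ∈ Lt := by
  apply Lt_log
  have hp : (0 : ℝ) < n := by exact_mod_cast Nat.pos_of_ne_zero hn
  rw [← Complex.ofReal_exp, Real.exp_log hp]
  have : ((n : ℝ) : ℂ) = (n : ℂ) := by push_cast; rfl
  rw [this]
  exact isAlgebraic_natCast _

/-- from `(n a) ^ (n b)` algebraic to `b log (n a)` in the span of `1` and logarithms -/
theorem Lt_of_pow {a b : ℝ} (ha : 0 < a) (n : ℕ) (hn : n ≠ 0)
    (h : IsAlgebraic ℚ (((n : ℝ) * a) ^ ((n : ℝ) * b))) :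
    (b : ℂ) * ((Real.log n : ℝ) + (Real.log a : ℝ)) ∈ Lt := by
  have hp : (0 : ℝ) < n := by exact_mod_cast Nat.pos_of_ne_zero hn
  have h1 : (((n : ℝ) * b * (Real.log n + Real.log a) : ℝ) : ℂ) ∈ Lt := by
    apply Lt_log
    rw [← Complex.ofReal_exp]
    apply toC
    rwa [Real.rpow_def_of_pos (mul_pos hp ha), Real.log_mul hp.ne' ha.ne', mul_comm] at h
  have h2 := Lt_mul (a := ((n : ℂ))⁻¹) (isAlgebraic_natCast n).inv h1
  have hn' : (n : ℂ) ≠ 0 := by exact_mod_cast hn
  have e : ((n : ℂ))⁻¹ * (((n : ℝ) * b * (Real.log n + Real.log a) : ℝ) : ℂ) =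
      (b : ℂ) * ((Real.log n : ℝ) + (Real.log a : ℝ)) := by
    push_cast
    field_simp
  rwa [e] at h2

/-- the exponent vectors of the `n` with `(n e) ^ (n e)` algebraic are collinear -/
theorem rel_e (n : Fin 3 → ℕ) (hn : ∀ i, n i ≠ 0)
    (h : ∀ i, IsAlgebraic ℚ (((n i : ℝ) * Real.exp 1) ^ ((n i : ℝ) * Real.exp 1))) : Rel n := by
  obtain ⟨c, hc, h1, h2⟩ := dim_two (θ := ((Real.exp 1 : ℝ) : ℂ)) (by
      have := transcendental_exp_one_complex
      simpa using this)
    (fun i => ((Real.log (n i) : ℝ) : ℂ) + 1) (fun i => Lt.add_mem (Lt_log_nat _ (hn i)) Lt_one)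
    (fun i => by
      have := Lt_of_pow (Real.exp_pos 1) (n i) (hn i) (h i)
      rwa [Real.log_exp, Complex.ofReal_one] at this)
  obtain ⟨h3, h4⟩ := baker_nat n (∑ i, c i) (mem_QB.mp (sum_mem fun i _ => mem_QB.mpr (hc i)))
    c hc (by
      rw [← h1, ← sum_add_distrib]
      refine sum_congr rfl fun i _ => ?_
      ring)
  exact ⟨c, h3, h2, h4⟩

/-- the exponent vectors of the `n` with `(n π) ^ (n π)` algebraic are collinear -/
theorem rel_pi (n : Fin 3 → ℕ) (hn : ∀ i, n i ≠ 0)
    (h : ∀ i, IsAlgebraic ℚ (((n i : ℝ) * Real.pi) ^ ((n i : ℝ) * Real.pi))) : Rel n := by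
  have hL : ∀ i, (Real.pi : ℂ) * (((Real.log (n i) : ℝ) : ℂ) - ((Real.log (n 0) : ℝ) : ℂ)) ∈ Lt := by
    intro i
    have h1 := Lt_of_pow Real.pi_pos (n i) (hn i) (h i)
    have h2 := Lt_of_pow Real.pi_pos (n 0) (hn 0) (h 0)
    have h3 := Lt.sub_mem h1 h2
    have e : (Real.pi : ℂ) * ((Real.log (n i) : ℝ) + (Real.log Real.pi : ℝ)) -
        (Real.pi : ℂ) * ((Real.log (n 0) : ℝ) + (Real.log Real.pi : ℝ)) =
        (Real.pi : ℂ) * (((Real.log (n i) : ℝ) : ℂ) - ((Real.log (n 0) : ℝ) : ℂ)) := by ring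
    rwa [e] at h3
  have hL' : ∀ i, ((Real.log (n i) : ℝ) : ℂ) - ((Real.log (n 0) : ℝ) : ℂ) ∈ Lt := fun i =>
    Lt.sub_mem (Lt_log_nat _ (hn i)) (Lt_log_nat _ (hn 0))
  obtain ⟨c, hc, h1, h2⟩ := dim_two (θ := (Real.pi : ℂ)) transcendental_pi_complex
    ![1, ((Real.log (n 1) : ℝ) : ℂ) - ((Real.log (n 0) : ℝ) : ℂ),
      ((Real.log (n 2) : ℝ) : ℂ) - ((Real.log (n 0) : ℝ) : ℂ)] (by
      intro i
      fin_cases i
      · exact Lt_one
      · exact hL' 1
      · exact hL' 2) (by
      intro i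
      fin_cases i
      · change (Real.pi : ℂ) * 1 ∈ Lt
        rw [mul_one]; exact Lt_pi
      · exact hL 1
      · exact hL 2)
  rw [Fin.sum_univ_three] at h1
  simp only [Matrix.cons_val_zero, Matrix.cons_val_one, Matrix.cons_val] at h1
  have hd : ∀ i, IsAlgebraic ℚ ((![-c 1 - c 2, c 1, c 2] : Fin 3 → ℂ) i) := by
    intro i
    fin_cases i
    · exact (hc 1).neg.sub (hc 2)
    · exact hc 1
    · exact hc 2
  obtain ⟨h3, h4⟩ := baker_nat n (c 0) (hc 0) ![-c 1 - c 2, c 1, c 2] hd (by
      rw [Fin.sum_univ_three]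
      simp only [Matrix.cons_val_zero, Matrix.cons_val_one, Matrix.cons_val]
      linear_combination h1)
  refine ⟨![-c 1 - c 2, c 1, c 2], ?_, ?_, h4⟩
  · rw [Fin.sum_univ_three]
    simp only [Matrix.cons_val_zero, Matrix.cons_val_one, Matrix.cons_val]
    ring
  · by_contra hcon
    push Not at hcon
    obtain ⟨i, hi⟩ := h2
    fin_cases i
    · exact hi h3
    · exact hi (by simpa using hcon 1)
    · exact hi (by simpa using hcon 2)

/-- the exponent vectors of the `n` with `(n π) ^ (n e)` algebraic are coplanar -/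
theorem rel_pie (n : Fin 4 → ℕ) (hn : ∀ i, n i ≠ 0)
    (h : ∀ i, IsAlgebraic ℚ (((n i : ℝ) * Real.pi) ^ ((n i : ℝ) * Real.exp 1))) : Rel n := by
  have hL : ∀ i, ((Real.exp 1 : ℝ) : ℂ) *
      (((Real.log (n i) : ℝ) : ℂ) - ((Real.log (n 0) : ℝ) : ℂ)) ∈ Lt := by
    intro i
    have h1 := Lt_of_pow Real.pi_pos (n i) (hn i) (h i)
    have h2 := Lt_of_pow Real.pi_pos (n 0) (hn 0) (h 0)
    have h3 := Lt.sub_mem h1 h2
    have e : ((Real.exp 1 : ℝ) : ℂ) * ((Real.log (n i) : ℝ) + (Real.log Real.pi : ℝ)) -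
        ((Real.exp 1 : ℝ) : ℂ) * ((Real.log (n 0) : ℝ) + (Real.log Real.pi : ℝ)) =
        ((Real.exp 1 : ℝ) : ℂ) * (((Real.log (n i) : ℝ) : ℂ) - ((Real.log (n 0) : ℝ) : ℂ)) := by
      ring
    rwa [e] at h3
  have hL' : ∀ i, ((Real.log (n i) : ℝ) : ℂ) - ((Real.log (n 0) : ℝ) : ℂ) ∈ Lt := fun i =>
    Lt.sub_mem (Lt_log_nat _ (hn i)) (Lt_log_nat _ (hn 0))
  obtain ⟨c, hc, h1, h2⟩ := dim_two (θ := ((Real.exp 1 : ℝ) : ℂ)) (by
      have := transcendental_exp_one_complex
      simpa using this)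
    (fun i : Fin 3 => ((Real.log (n i.succ) : ℝ) : ℂ) - ((Real.log (n 0) : ℝ) : ℂ))
    (fun i => hL' _) (fun i => hL _)
  rw [Fin.sum_univ_three] at h1
  have hd : ∀ i, IsAlgebraic ℚ ((![-c 0 - c 1 - c 2, c 0, c 1, c 2] : Fin 4 → ℂ) i) := by
    intro i
    fin_cases i
    · exact ((hc 0).neg.sub (hc 1)).sub (hc 2)
    · exact hc 0
    · exact hc 1
    · exact hc 2
  have e1 : (1 : Fin 3).succ = (2 : Fin 4) := rfl
  have e2 : (2 : Fin 3).succ = (3 : Fin 4) := rfl
  have e0 : (0 : Fin 3).succ = (1 : Fin 4) := rfl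
  rw [e0, e1, e2] at h1
  obtain ⟨-, h4⟩ := baker_nat n 0 isAlgebraic_zero ![-c 0 - c 1 - c 2, c 0, c 1, c 2] hd (by
      rw [Fin.sum_univ_four]
      simp only [Matrix.cons_val_zero, Matrix.cons_val_one, Matrix.cons_val]
      linear_combination h1)
  refine ⟨![-c 0 - c 1 - c 2, c 0, c 1, c 2], ?_, ?_, h4⟩
  · rw [Fin.sum_univ_four]
    simp only [Matrix.cons_val_zero, Matrix.cons_val_one, Matrix.cons_val]
    ring
  · by_contra hcon
    push Not at hcon
    obtain ⟨i, hi⟩ := h2
    fin_cases i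
    · exact hi (by simpa using hcon 1)
    · exact hi (by simpa using hcon 2)
    · exact hi (by simpa using hcon 3)

open Classical in
/-- Counting the `n ≤ N` with `(n e) ^ (n e)`, `(n π) ^ (n π)`, `(n π) ^ (n e)` algebraic; and the
`n ≤ N` for which less than four of the five numbers `n π + n e`, `(n π) (n e)`, `(n π) ^ (n e)`,
`(n e) ^ (n e)`, `(n π) ^ (n π)` are transcendental. -/
theorem result :
    (∀ N : ℕ,
      ((Icc 1 N).filter fun n : ℕ =>
        IsAlgebraic ℚ (((n : ℝ) * Real.exp 1) ^ ((n : ℝ) * Real.exp 1))).card ≤ Nat.log 2 N + 1 ∧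
      ((Icc 1 N).filter fun n : ℕ =>
        IsAlgebraic ℚ (((n : ℝ) * Real.pi) ^ ((n : ℝ) * Real.pi))).card ≤ Nat.log 2 N + 1 ∧
      ((Icc 1 N).filter fun n : ℕ =>
        IsAlgebraic ℚ (((n : ℝ) * Real.pi) ^ ((n : ℝ) * Real.exp 1))).card ≤
          (Nat.log 2 N + 1) ^ 2 ∧
      ((Icc 1 N).filter fun n : ℕ =>
        ¬ ∃ s : Finset (Fin 5), s.card = 4 ∧ ∀ i ∈ s, Transcendental ℚ ((![
          (n : ℝ) * Real.pi + (n : ℝ) * Real.exp 1, (n : ℝ) * Real.pi * ((n : ℝ) * Real.exp 1),
          ((n : ℝ) * Real.pi) ^ ((n : ℝ) * Real.exp 1),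
          ((n : ℝ) * Real.exp 1) ^ ((n : ℝ) * Real.exp 1),
          ((n : ℝ) * Real.pi) ^ ((n : ℝ) * Real.pi)] : Fin 5 → ℝ) i)).card ≤
          (Nat.log 2 N + 1) ^ 2 + 2 * (Nat.log 2 N + 1)) := by
  intro N
  set A1 := (Icc 1 N).filter fun n : ℕ =>
        IsAlgebraic ℚ (((n : ℝ) * Real.exp 1) ^ ((n : ℝ) * Real.exp 1)) with hA1
  set A2 := (Icc 1 N).filter fun n : ℕ =>
        IsAlgebraic ℚ (((n : ℝ) * Real.pi) ^ ((n : ℝ) * Real.pi)) with hA2
  set A3 := (Icc 1 N).filter fun n : ℕ =>
        IsAlgebraic ℚ (((n : ℝ) * Real.pi) ^ ((n : ℝ) * Real.exp 1)) with hA3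
  have b1 : A1.card ≤ Nat.log 2 N + 1 := by
    apply line
    · intro n hn
      rw [hA1, mem_filter, mem_Icc] at hn
      omega
    · intro n hn
      apply rel_e
      · intro i
        have := hn i
        rw [hA1, mem_filter, mem_Icc] at this
        omega
      · intro i
        have := hn i
        rw [hA1, mem_filter] at this
        exact this.2
  have b2 : A2.card ≤ Nat.log 2 N + 1 := by
    apply line
    · intro n hn
      rw [hA2, mem_filter, mem_Icc] at hn
      omega
    · intro n hn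
      apply rel_pi
      · intro i
        have := hn i
        rw [hA2, mem_filter, mem_Icc] at this
        omega
      · intro i
        have := hn i
        rw [hA2, mem_filter] at this
        exact this.2
  have b3 : A3.card ≤ (Nat.log 2 N + 1) ^ 2 := by
    apply plane
    · intro n hn
      rw [hA3, mem_filter, mem_Icc] at hn
      omega
    · intro n hn
      apply rel_pie
      · intro i
        have := hn i
        rw [hA3, mem_filter, mem_Icc] at this
        omega
      · intro i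
        have := hn i
        rw [hA3, mem_filter] at this
        exact this.2
  refine ⟨b1, b2, b3, ?_⟩
  have hsub : ((Icc 1 N).filter fun n : ℕ =>
        ¬ ∃ s : Finset (Fin 5), s.card = 4 ∧ ∀ i ∈ s, Transcendental ℚ ((![
          (n : ℝ) * Real.pi + (n : ℝ) * Real.exp 1, (n : ℝ) * Real.pi * ((n : ℝ) * Real.exp 1),
          ((n : ℝ) * Real.pi) ^ ((n : ℝ) * Real.exp 1),
          ((n : ℝ) * Real.exp 1) ^ ((n : ℝ) * Real.exp 1),
          ((n : ℝ) * Real.pi) ^ ((n : ℝ) * Real.pi)] : Fin 5 → ℝ) i)) ⊆ A3 ∪ (A1 ∪ A2) := by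
    intro n hn
    rw [mem_filter] at hn
    obtain ⟨h1, h2⟩ := hn
    by_contra hcon
    rw [mem_union, mem_union, not_or, not_or, hA1, hA2, hA3, mem_filter, mem_filter, mem_filter]
      at hcon
    obtain ⟨h3, h4, h5⟩ := hcon
    have h3' : Transcendental ℚ (((n : ℝ) * Real.pi) ^ ((n : ℝ) * Real.exp 1)) :=
      fun h => h3 ⟨h1, h⟩
    have h4' : Transcendental ℚ (((n : ℝ) * Real.exp 1) ^ ((n : ℝ) * Real.exp 1)) :=
      fun h => h4 ⟨h1, h⟩
    have h5' : Transcendental ℚ (((n : ℝ) * Real.pi) ^ ((n : ℝ) * Real.pi)) :=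
      fun h => h5 ⟨h1, h⟩
    apply h2
    have hn0 : (n : ℝ) ≠ 0 := by
      rw [mem_Icc] at h1
      exact_mod_cast (by omega : n ≠ 0)
    by_cases h6 : IsAlgebraic ℚ ((n : ℝ) * Real.pi + (n : ℝ) * Real.exp 1)
    · refine ⟨{1, 2, 3, 4}, by decide, ?_⟩
      have h7 : Transcendental ℚ ((n : ℝ) * Real.pi * ((n : ℝ) * Real.exp 1)) := by
        intro h7
        have hni : IsAlgebraic ℚ ((n : ℝ))⁻¹ := (isAlgebraic_natCast n).inv
        apply sum_prod
        · have := hni.mul h6
          have e : ((n : ℝ))⁻¹ * ((n : ℝ) * Real.pi + (n : ℝ) * Real.exp 1) =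
              Real.pi + Real.exp 1 := by field_simp
          rwa [e] at this
        · have := (hni.mul hni).mul h7
          have e : ((n : ℝ))⁻¹ * ((n : ℝ))⁻¹ * ((n : ℝ) * Real.pi * ((n : ℝ) * Real.exp 1)) =
              Real.pi * Real.exp 1 := by field_simp
          rwa [e] at this
      intro i hi
      fin_cases i
      · simp at hi
      · exact h7
      · exact h3'
      · exact h4'
      · exact h5'
    · refine ⟨{0, 2, 3, 4}, by decide, ?_⟩
      intro i hi
      fin_cases i
      · exact h6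
      · simp at hi
      · exact h3'
      · exact h4'
      · exact h5'
  have h1 := card_le_card hsub
  have h2 := card_union_le A3 (A1 ∪ A2)
  have h3 := card_union_le A1 A2
  omega

end Pool.Agent.Results.MP_a49cf6_nt.ScaledConstants
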