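import Mathlib
import Pool.Agent.W472.AC.EMeas2

/-!
# A simultaneous transcendence measure for `π + e` and `π e`

`π + e` and `π e` are not both algebraic. Here is a quantitative form: for every `d ≥ 1` and `ε > 0`
there is `c > 0` such that for all `H ≥ 1` and all nonzero integer polynomials `P`, `Q` of degree at
most `d` with coefficients at most `H`,
`max (|P (π + e)|, |Q (π e)|) ≥ c H ^ (- (4 d ^ 3 + 2 d - 1) - ε)`. So at every scale `H` one of the two
numbers has a transcendence measure. The same holds, uniformly, for `t + e` and `t e` with real `t` in a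
bounded interval.
-/

set_option autoImplicit false

namespace Pool.Agent.Results.MP_a49cf6_nt.SimultaneousMeasure

open Finset Polynomial

/-! ### the length of an integer polynomial -/

/-- sum of the absolute values of the coefficients -/
noncomputable def len (F : ℤ[X]) : ℝ := ∑ i ∈ F.support, |(F.coeff i : ℝ)|

lemma len_nonneg (F : ℤ[X]) : 0 ≤ len F := sum_nonneg fun _ _ => abs_nonneg _

lemma len_eq (F : ℤ[X]) (s : Finset ℕ) (hs : F.support ⊆ s) :
    len F = ∑ i ∈ s, |(F.coeff i : ℝ)| := by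
  unfold len
  apply sum_subset hs
  intro i _ hi
  rw [notMem_support_iff.mp hi]; simp

lemma len_add (F G : ℤ[X]) : len (F + G) ≤ len F + len G := by
  classical
  rw [len_eq (F + G) (F.support ∪ G.support) support_add,
    len_eq F (F.support ∪ G.support) subset_union_left,
    len_eq G (F.support ∪ G.support) subset_union_right, ← sum_add_distrib]
  apply sum_le_sum
  intro i _
  rw [coeff_add]
  push_cast
  exact abs_add_le _ _

lemma len_zero : len 0 = 0 := by simp [len]

lemma len_neg (F : ℤ[X]) : len (-F) = len F := by simp [len]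

lemma len_sum {ι : Type*} (s : Finset ι) (F : ι → ℤ[X]) : len (∑ i ∈ s, F i) ≤ ∑ i ∈ s, len (F i) := by
  classical
  induction s using Finset.induction_on with
  | empty => simp [len_zero]
  | insert a s ha ih =>
    rw [sum_insert ha, sum_insert ha]
    exact (len_add _ _).trans (by linarith)

lemma len_monomial (n : ℕ) (a : ℤ) : len (monomial n a) = |(a : ℝ)| := by
  by_cases ha : a = 0
  · subst ha; simp [len_zero]
  · unfold len
    rw [support_monomial n ha, sum_singleton, coeff_monomial, if_pos rfl]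

lemma len_mul (F G : ℤ[X]) : len (F * G) ≤ len F * len G := by
  rw [Polynomial.mul_eq_sum_sum]
  refine (len_sum _ _).trans ?_
  unfold len
  rw [sum_mul]
  apply sum_le_sum
  intro i _
  rw [Polynomial.sum]
  refine (len_sum _ _).trans ?_
  rw [mul_sum]
  apply sum_le_sum
  intro j _
  rw [len_monomial]
  push_cast
  rw [abs_mul]

lemma len_prod {ι : Type*} (s : Finset ι) (F : ι → ℤ[X]) : len (∏ i ∈ s, F i) ≤ ∏ i ∈ s, len (F i) := by
  classical
  induction s using Finset.induction_on with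
  | empty =>
    rw [prod_empty, prod_empty]
    have := len_monomial 0 1
    simp at this
    exact this.le
  | insert a s ha ih =>
    rw [prod_insert ha, prod_insert ha]
    exact (len_mul _ _).trans (mul_le_mul_of_nonneg_left ih (len_nonneg _))

lemma coeff_le_len (F : ℤ[X]) (j : ℕ) : |(F.coeff j : ℝ)| ≤ len F := by
  by_cases hj : j ∈ F.support
  · exact single_le_sum (f := fun i => |(F.coeff i : ℝ)|) (fun _ _ => abs_nonneg _) hj
  · rw [notMem_support_iff.mp hj]
    simpa using len_nonneg F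

/-! ### determinants -/

lemma len_det {N : ℕ} (M : Matrix (Fin N) (Fin N) ℤ[X]) (B : ℝ) (h : ∀ i j, len (M i j) ≤ B) :
    len M.det ≤ (N.factorial : ℝ) * B ^ N := by
  rw [Matrix.det_apply]
  refine (len_sum _ _).trans ?_
  have h1 : ∀ σ : Equiv.Perm (Fin N), len (Equiv.Perm.sign σ • ∏ i, M (σ i) i) ≤ B ^ N := by
    intro σ
    have h2 : len (Equiv.Perm.sign σ • ∏ i, M (σ i) i) = len (∏ i, M (σ i) i) := by
      rcases Int.units_eq_one_or (Equiv.Perm.sign σ) with h3 | h3
      · rw [h3, one_smul]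
      · rw [h3, Units.neg_smul, one_smul, len_neg]
    rw [h2]
    refine (len_prod _ _).trans ?_
    refine (prod_le_prod (fun _ _ => len_nonneg _) fun i _ => h (σ i) i).trans ?_
    rw [prod_const, card_univ, Fintype.card_fin]
  refine (sum_le_sum fun σ _ => h1 σ).trans ?_
  rw [sum_const, card_univ, Fintype.card_perm, Fintype.card_fin, nsmul_eq_mul]

lemma natDegree_det {N : ℕ} (M : Matrix (Fin N) (Fin N) ℤ[X]) (D : Fin N → ℕ)
    (h : ∀ i j, (M i j).natDegree ≤ D j) : M.det.natDegree ≤ ∑ j, D j := by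
  rw [Matrix.det_apply]
  apply natDegree_sum_le_of_forall_le
  intro σ _
  have h1 : (Equiv.Perm.sign σ • ∏ i, M (σ i) i).natDegree = (∏ i, M (σ i) i).natDegree := by
    rcases Int.units_eq_one_or (Equiv.Perm.sign σ) with h3 | h3
    · rw [h3, one_smul]
    · rw [h3, Units.neg_smul, one_smul, natDegree_neg]
  rw [h1]
  exact (natDegree_prod_le _ _).trans (sum_le_sum fun i _ => h _ _)

lemma abs_det {N : ℕ} (M : Matrix (Fin N) (Fin N) ℝ) (B δ : ℝ) (i₀ : Fin N)
    (h : ∀ i j, |M i j| ≤ B) (hδ : ∀ j, |M i₀ j| ≤ δ) :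
    |M.det| ≤ (N.factorial : ℝ) * (δ * B ^ (N - 1)) := by
  classical
  have hδ0 : 0 ≤ δ := (abs_nonneg _).trans (hδ i₀)
  rw [Matrix.det_apply]
  refine (abs_sum_le_sum_abs _ _).trans ?_
  have h1 : ∀ σ : Equiv.Perm (Fin N), |Equiv.Perm.sign σ • ∏ i, M (σ i) i| ≤ δ * B ^ (N - 1) := by
    intro σ
    have h2 : |Equiv.Perm.sign σ • ∏ i, M (σ i) i| = ∏ i, |M (σ i) i| := by
      rcases Int.units_eq_one_or (Equiv.Perm.sign σ) with h3 | h3
      · rw [h3, one_smul, abs_prod]
      · rw [h3, Units.neg_smul, one_smul, abs_neg, abs_prod]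
    rw [h2, ← mul_prod_erase univ _ (mem_univ (σ.symm i₀))]
    apply mul_le_mul
    · rw [Equiv.apply_symm_apply]
      exact hδ _
    · refine (prod_le_prod (fun _ _ => abs_nonneg _) fun i _ => h (σ i) i).trans ?_
      rw [prod_const, card_erase_of_mem (mem_univ _), card_univ, Fintype.card_fin]
    · exact prod_nonneg fun _ _ => abs_nonneg _
    · exact hδ0
  refine (sum_le_sum fun σ _ => h1 σ).trans ?_
  rw [sum_const, card_univ, Fintype.card_perm, Fintype.card_fin, nsmul_eq_mul]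

/-! ### shifted polynomials -/

section

variable {R : Type*} [CommRing R]

/-- `∑ a_k (X + s) ^ k` -/
noncomputable def sh (a : ℕ → R) (s : R) (m : ℕ) : R[X] :=
  ∑ k ∈ range (m + 1), C (a k) * (X + C s) ^ k

lemma coeff_sh (a : ℕ → R) (s : R) (m j : ℕ) :
    (sh a s m).coeff j = ∑ k ∈ range (m + 1), a k * (s ^ (k - j) * (k.choose j : R)) := by
  unfold sh
  rw [finsetSum_coeff]
  refine sum_congr rfl fun k _ => ?_
  rw [coeff_C_mul, coeff_X_add_C_pow]

lemma taylor_sh (a : ℕ → R) (s r : R) (m : ℕ) : (sh a s m).taylor r = sh a (s + r) m := by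
  unfold sh
  rw [map_sum]
  refine sum_congr rfl fun k _ => ?_
  rw [taylor_mul, taylor_C, taylor_pow, map_add, taylor_X, taylor_C, C_add]
  congr 2
  ring

lemma map_sh {S : Type*} [CommRing S] (φ : R →+* S) (a : ℕ → R) (s : R) (m : ℕ) :
    (sh a s m).map φ = sh (fun k => φ (a k)) (φ s) m := by
  unfold sh
  rw [Polynomial.map_sum]
  refine sum_congr rfl fun k _ => ?_
  rw [Polynomial.map_mul, map_C, Polynomial.map_pow, Polynomial.map_add, map_X, map_C]

lemma eval_sh (a : ℕ → R) (s z : R) (m : ℕ) :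
    (sh a s m).eval z = ∑ k ∈ range (m + 1), a k * (z + s) ^ k := by
  unfold sh
  rw [eval_finsetSum]
  refine sum_congr rfl fun k _ => ?_
  simp

lemma natDegree_sh_le (a : ℕ → R) (s : R) (m : ℕ) : (sh a s m).natDegree ≤ m := by
  rw [natDegree_le_iff_coeff_eq_zero]
  intro N hN
  rw [coeff_sh]
  apply sum_eq_zero
  intro k hk
  rw [mem_range] at hk
  rw [Nat.choose_eq_zero_of_lt (by omega)]
  simp

lemma natDegree_sh [Nontrivial R] (a : ℕ → R) (s : R) (m : ℕ) (h : a m ≠ 0) :
    (sh a s m).natDegree = m := by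
  apply le_antisymm (natDegree_sh_le a s m)
  apply le_natDegree_of_ne_zero
  rw [coeff_sh, sum_eq_single m]
  · simpa using h
  · intro k hk hkm
    rw [mem_range] at hk
    rw [Nat.choose_eq_zero_of_lt (by omega)]
    simp
  · intro hm
    exact absurd (mem_range.mpr (by omega)) hm

end

/-- `x ^ m P ((x ^ 2 + z) / x)`, as polynomial in `z` over `ℤ[x]` -/
noncomputable def P1 (P : ℤ[X]) : ℤ[X][X] :=
  sh (fun k => C (P.coeff k) * X ^ (P.natDegree - k)) (X ^ 2) P.natDegree

/-- `Q (z)` -/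
noncomputable def Q1 (Q : ℤ[X]) : ℤ[X][X] := sh (fun k => C (Q.coeff k)) 0 Q.natDegree

/-- the resultant, a polynomial in `x` -/
noncomputable def RR (P Q : ℤ[X]) : ℤ[X] := resultant (P1 P) (Q1 Q) P.natDegree Q.natDegree

/-- the specialisations -/
lemma eval_RR {S : Type*} [CommRing S] (P Q : ℤ[X]) (x : S) :
    aeval x (RR P Q) = resultant
      (sh (fun k => (P.coeff k : S) * x ^ (P.natDegree - k)) (x ^ 2) P.natDegree)
      (sh (fun k => (Q.coeff k : S)) 0 Q.natDegree) P.natDegree Q.natDegree := by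
  have h := resultant_map_map (P1 P) (Q1 Q) P.natDegree Q.natDegree
    ((aeval x : ℤ[X] →ₐ[ℤ] S) : ℤ[X] →+* S)
  have e1 : (P1 P).map ((aeval x : ℤ[X] →ₐ[ℤ] S) : ℤ[X] →+* S) =
      sh (fun k => (P.coeff k : S) * x ^ (P.natDegree - k)) (x ^ 2) P.natDegree := by
    unfold P1
    rw [map_sh]
    congr 1
    · funext k
      simp
    · simp
  have e2 : (Q1 Q).map ((aeval x : ℤ[X] →ₐ[ℤ] S) : ℤ[X] →+* S) =
      sh (fun k => (Q.coeff k : S)) 0 Q.natDegree := by
    unfold Q1
    rw [map_sh]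
    congr 1
    · funext k
      simp
    · simp
  rw [e1, e2] at h
  rw [h]
  rfl

lemma aeval_eq_sum {S : Type*} [CommRing S] (P : ℤ[X]) (w : S) :
    aeval w P = ∑ k ∈ range (P.natDegree + 1), (P.coeff k : S) * w ^ k := by
  rw [aeval_eq_sum_range]
  refine sum_congr rfl fun k _ => ?_
  rw [zsmul_eq_mul]

/-- value of the first polynomial -/
lemma P1_value {S : Type*} [Field S] (P : ℤ[X]) (x z : S) (hx : x ≠ 0) :
    ∑ k ∈ range (P.natDegree + 1), (P.coeff k : S) * x ^ (P.natDegree - k) * (z + x ^ 2) ^ k =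
      x ^ P.natDegree * aeval ((z + x ^ 2) / x) P := by
  rw [aeval_eq_sum, mul_sum]
  refine sum_congr rfl fun k hk => ?_
  rw [mem_range] at hk
  have h1 : x ^ P.natDegree = x ^ (P.natDegree - k) * x ^ k := by
    rw [← pow_add]
    congr 1
    omega
  rw [h1, div_pow]
  field_simp

/-- the resultant is not zero -/
theorem RR_ne_zero (P Q : ℤ[X]) (hP : P ≠ 0) (hQ : Q ≠ 0) : RR P Q ≠ 0 := by
  classical
  -- a good specialisation
  set PC := P.map (Int.castRingHom ℂ) with hPC
  set QC := Q.map (Int.castRingHom ℂ) with hQC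
  have hinj : Function.Injective (Int.castRingHom ℂ) := Int.cast_injective
  have hPC0 : PC ≠ 0 := (Polynomial.map_ne_zero_iff hinj).mpr hP
  have hQC0 : QC ≠ 0 := (Polynomial.map_ne_zero_iff hinj).mpr hQ
  let B : ℂ[X] := ∏ w ∈ PC.roots.toFinset, ∏ z ∈ QC.roots.toFinset, (X ^ 2 - C w * X + C z)
  have hB : B ≠ 0 := by
    rw [prod_ne_zero_iff]
    intro w _
    rw [prod_ne_zero_iff]
    intro z _ h
    have h1 := congrArg (fun F : ℂ[X] => F.coeff 2) h
    simp at h1
  obtain ⟨x, hx1, hx⟩ : ∃ x : ℕ, 1 ≤ x ∧ B.eval (x : ℂ) ≠ 0 := by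
    by_contra hcon
    push Not at hcon
    apply hB
    apply eq_zero_of_infinite_isRoot
    have h1 : Set.range (fun n : ℕ => ((n + 1 : ℕ) : ℂ)) ⊆ {x | B.IsRoot x} := by
      rintro _ ⟨n, rfl⟩
      exact hcon (n + 1) (by omega)
    refine Set.Infinite.mono h1 (Set.infinite_range_of_injective ?_)
    intro a b hab
    simpa using hab
  have hx0 : (x : ℂ) ≠ 0 := by
    have : x ≠ 0 := by omega
    exact_mod_cast this
  intro h
  have h1 := eval_RR P Q (x : ℂ)
  rw [h, map_zero] at h1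
  have hp : (P.coeff P.natDegree : ℂ) ≠ 0 := by
    have : P.coeff P.natDegree ≠ 0 := by
      rw [coeff_natDegree]; exact leadingCoeff_ne_zero.mpr hP
    exact_mod_cast this
  have hq : (Q.coeff Q.natDegree : ℂ) ≠ 0 := by
    have : Q.coeff Q.natDegree ≠ 0 := by
      rw [coeff_natDegree]; exact leadingCoeff_ne_zero.mpr hQ
    exact_mod_cast this
  set f := sh (fun k => (P.coeff k : ℂ) * (x : ℂ) ^ (P.natDegree - k)) ((x : ℂ) ^ 2) P.natDegree
    with hf
  set g := sh (fun k => (Q.coeff k : ℂ)) 0 Q.natDegree with hg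
  have hfd : f.natDegree = P.natDegree := by
    apply natDegree_sh
    simpa using hp
  have hgd : g.natDegree = Q.natDegree := by
    apply natDegree_sh
    exact hq
  have hco : IsCoprime f g := by
    rw [isCoprime_iff_aeval_ne_zero_of_isAlgClosed (K := ℂ) (k := ℂ)]
    intro z
    by_contra hcon
    push Not at hcon
    obtain ⟨h2, h3⟩ := hcon
    rw [coe_aeval_eq_eval] at h2 h3
    rw [hf, eval_sh, P1_value P _ _ hx0] at h2
    rw [hg, eval_sh] at h3
    have h4 : aeval z Q = 0 := by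
      rw [aeval_eq_sum, ← h3]
      refine sum_congr rfl fun k _ => ?_
      rw [add_zero]
    have h5 : aeval ((z + (x : ℂ) ^ 2) / (x : ℂ)) P = 0 :=
      (mul_eq_zero.mp h2).resolve_left (pow_ne_zero _ hx0)
    have h6 : z ∈ QC.roots.toFinset := by
      rw [Multiset.mem_toFinset, mem_roots hQC0, IsRoot, hQC, eval_map]
      exact h4
    have h7 : (z + (x : ℂ) ^ 2) / (x : ℂ) ∈ PC.roots.toFinset := by
      rw [Multiset.mem_toFinset, mem_roots hPC0, IsRoot, hPC, eval_map]
      exact h5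
    apply hx
    rw [eval_prod]
    apply prod_eq_zero h7
    rw [eval_prod]
    apply prod_eq_zero h6
    simp only [eval_add, eval_sub, eval_pow, eval_X, eval_mul, eval_C]
    field_simp
    ring
  have h2 := resultant_ne_zero f g hco
  rw [hfd, hgd] at h2
  exact h2 h1.symm

/-! ### size of the resultant -/

lemma RR_natDegree (P Q : ℤ[X]) (d : ℕ) (hP : P.natDegree ≤ d) (hQ : Q.natDegree ≤ d) :
    (RR P Q).natDegree ≤ 2 * d ^ 2 := by
  unfold RR resultant
  refine (natDegree_det _ (Fin.addCases (fun _ => 0) (fun _ => 2 * P.natDegree)) ?_).trans ?_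
  · intro i j
    refine Fin.addCases (fun j₁ => ?_) (fun j₁ => ?_) j
    · simp only [sylvester, Matrix.of_apply, Fin.addCases_left]
      split_ifs
      · unfold Q1
        rw [coeff_sh]
        apply natDegree_sum_le_of_forall_le
        intro k _
        rcases Nat.eq_zero_or_pos (k - (i - j₁ : ℕ)) with h | h
        · rw [h, pow_zero, one_mul]
          refine natDegree_mul_le.trans ?_
          rw [natDegree_C, natDegree_natCast]
        · rw [zero_pow h.ne', zero_mul, mul_zero, natDegree_zero]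
      · simp
    · simp only [sylvester, Matrix.of_apply, Fin.addCases_right]
      split_ifs
      · unfold P1
        rw [coeff_sh]
        apply natDegree_sum_le_of_forall_le
        intro k hk
        rw [mem_range] at hk
        refine natDegree_mul_le.trans ?_
        have h1 : (C (P.coeff k) * X ^ (P.natDegree - k) : ℤ[X]).natDegree ≤ P.natDegree - k :=
          natDegree_C_mul_X_pow_le _ _
        have h2 : ((X ^ 2 : ℤ[X]) ^ (k - (i - j₁ : ℕ)) * ((k.choose (i - j₁ : ℕ) : ℕ) : ℤ[X])).natDegree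
            ≤ 2 * k := by
          refine natDegree_mul_le.trans ?_
          rw [natDegree_natCast, ← pow_mul, natDegree_X_pow]
          have : k - (i - j₁ : ℕ) ≤ k := Nat.sub_le _ _
          omega
        omega
      · simp
  · rw [Fin.sum_univ_add]
    simp only [Fin.addCases_left, Fin.addCases_right, sum_const_zero, zero_add, sum_const,
      card_univ, Fintype.card_fin, smul_eq_mul]
    nlinarith [Nat.mul_le_mul hQ hP]

lemma choose_le_two_pow' (k j d : ℕ) (hk : k ≤ d) : ((k.choose j : ℕ) : ℝ) ≤ 2 ^ d := by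
  have h1 : k.choose j ≤ 2 ^ k := Nat.choose_le_two_pow k j
  have h2 : 2 ^ k ≤ 2 ^ d := Nat.pow_le_pow_right (by norm_num) hk
  exact_mod_cast h1.trans h2

lemma len_entry (a : ℕ → ℤ) (e : ℕ → ℕ) (m d j : ℕ) (hm : m ≤ d) (H : ℝ) (hH : 0 ≤ H)
    (ha : ∀ k, |(a k : ℝ)| ≤ H) :
    len (∑ k ∈ range (m + 1), C (a k) * X ^ (e k) * ((X ^ 2) ^ (k - j) * ((k.choose j : ℕ) : ℤ[X])))
      ≤ (d + 1) * 2 ^ d * H := by
  refine (len_sum _ _).trans ?_
  have h1 : ∀ k ∈ range (m + 1),
      len (C (a k) * X ^ (e k) * ((X ^ 2) ^ (k - j) * ((k.choose j : ℕ) : ℤ[X]))) ≤ 2 ^ d * H := by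
    intro k hk
    rw [mem_range] at hk
    have e1 : C (a k) * X ^ (e k) * ((X ^ 2) ^ (k - j) * ((k.choose j : ℕ) : ℤ[X])) =
        monomial (e k + 2 * (k - j)) (a k * (k.choose j : ℤ)) := by
      rw [← C_mul_X_pow_eq_monomial, C_mul, ← pow_mul, pow_add]
      have : (C ((k.choose j : ℕ) : ℤ) : ℤ[X]) = ((k.choose j : ℕ) : ℤ[X]) := by simp
      rw [← this]
      ring
    rw [e1, len_monomial]
    push_cast
    rw [abs_mul, mul_comm, Nat.abs_cast]
    exact mul_le_mul (choose_le_two_pow' k j d (by omega)) (ha k) (abs_nonneg _) (by positivity)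
  refine (sum_le_sum h1).trans ?_
  rw [sum_const, card_range, nsmul_eq_mul]
  have h2 : ((m + 1 : ℕ) : ℝ) ≤ d + 1 := by exact_mod_cast Nat.succ_le_succ hm
  have h3 : (0 : ℝ) ≤ 2 ^ d * H := by positivity
  nlinarith

lemma RR_len (P Q : ℤ[X]) (d : ℕ) (hP : P.natDegree ≤ d) (hQ : Q.natDegree ≤ d) (H : ℝ)
    (hH : 1 ≤ H) (hPH : ∀ k, |(P.coeff k : ℝ)| ≤ H) (hQH : ∀ k, |(Q.coeff k : ℝ)| ≤ H) :
    len (RR P Q) ≤ ((2 * d).factorial : ℝ) * ((d + 1) * 2 ^ d * H) ^ (2 * d) := by
  have hH0 : 0 ≤ H := by linarith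
  have hB1 : 1 ≤ ((d : ℝ) + 1) * 2 ^ d * H := by
    have h1 : (1 : ℝ) ≤ (d : ℝ) + 1 := by
      have : (0 : ℝ) ≤ d := Nat.cast_nonneg d
      linarith
    have h2 : (1 : ℝ) ≤ 2 ^ d := one_le_pow₀ (by norm_num)
    have h3 := mul_le_mul h1 h2 zero_le_one (by linarith)
    have h4 := mul_le_mul h3 hH zero_le_one (by positivity)
    linarith
  have key : len (RR P Q) ≤ ((P.natDegree + Q.natDegree).factorial : ℝ) *
      ((d + 1) * 2 ^ d * H) ^ (P.natDegree + Q.natDegree) := by
    unfold RR resultant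
    apply len_det
    intro i j
    refine Fin.addCases (fun j₁ => ?_) (fun j₁ => ?_) j
    · simp only [sylvester, Matrix.of_apply, Fin.addCases_left]
      split_ifs
      · unfold Q1
        rw [coeff_sh]
        refine le_trans (len_sum _ _) ?_
        have h1 : ∀ k ∈ range (Q.natDegree + 1), len (C (Q.coeff k) *
            (0 ^ (k - (i - j₁ : ℕ)) * ((k.choose (i - j₁ : ℕ) : ℕ) : ℤ[X]))) ≤ 2 ^ d * H := by
          intro k hk
          rw [mem_range] at hk
          rcases Nat.eq_zero_or_pos (k - (i - j₁ : ℕ)) with h | h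
          · rw [h, pow_zero, one_mul]
            have e1 : C (Q.coeff k) * ((k.choose (i - j₁ : ℕ) : ℕ) : ℤ[X]) =
                monomial 0 (Q.coeff k * (k.choose (i - j₁ : ℕ) : ℤ)) := by
              rw [monomial_zero_left, C_mul]
              simp
            rw [e1, len_monomial]
            push_cast
            rw [abs_mul, mul_comm, Nat.abs_cast]
            exact mul_le_mul (choose_le_two_pow' k _ d (by omega)) (hQH k) (abs_nonneg _)
              (by positivity)
          · rw [zero_pow h.ne', zero_mul, mul_zero, len_zero]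
            positivity
        refine (sum_le_sum h1).trans ?_
        rw [sum_const, card_range, nsmul_eq_mul]
        have h2 : ((Q.natDegree + 1 : ℕ) : ℝ) ≤ d + 1 := by exact_mod_cast Nat.succ_le_succ hQ
        have h3 : (0 : ℝ) ≤ 2 ^ d * H := by positivity
        nlinarith
      · rw [len_zero]; linarith
    · simp only [sylvester, Matrix.of_apply, Fin.addCases_right]
      split_ifs
      · unfold P1
        rw [coeff_sh]
        exact len_entry (fun k => P.coeff k) (fun k => P.natDegree - k) _ d _ hP H hH0 hPH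
      · rw [len_zero]; linarith
  have hN : P.natDegree + Q.natDegree ≤ 2 * d := by omega
  refine key.trans ?_
  apply mul_le_mul
  · exact_mod_cast Nat.factorial_le hN
  · exact pow_le_pow_right₀ hB1 hN
  · positivity
  · positivity

/-- coefficients of a shifted real polynomial -/
lemma coeff_bound (a : ℕ → ℝ) (s A K : ℝ) (hA : 1 ≤ A) (hs : |s| ≤ A) (m d j : ℕ) (hm : m ≤ d)
    (hK : 0 ≤ K) (ha : ∀ k ≤ m, |a k| ≤ K) :
    |(sh a s m).coeff j| ≤ (d + 1) * (A ^ d * 2 ^ d) * K := by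
  rw [coeff_sh]
  refine (abs_sum_le_sum_abs _ _).trans ?_
  have h1 : ∀ k ∈ range (m + 1), |a k * (s ^ (k - j) * ((k.choose j : ℕ) : ℝ))| ≤
      (A ^ d * 2 ^ d) * K := by
    intro k hk
    rw [mem_range] at hk
    rw [abs_mul, abs_mul, abs_pow, Nat.abs_cast, mul_comm]
    apply mul_le_mul
    · apply mul_le_mul
      · calc |s| ^ (k - j) ≤ A ^ (k - j) := pow_le_pow_left₀ (abs_nonneg _) hs _
          _ ≤ A ^ d := pow_le_pow_right₀ hA (by omega)
      · exact choose_le_two_pow' k j d (by omega)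
      · positivity
      · positivity
    · exact ha k (by omega)
    · exact abs_nonneg _
    · positivity
  refine (sum_le_sum h1).trans ?_
  rw [sum_const, card_range, nsmul_eq_mul]
  have h2 : ((m + 1 : ℕ) : ℝ) ≤ d + 1 := by exact_mod_cast Nat.succ_le_succ hm
  have h3 : (0 : ℝ) ≤ (A ^ d * 2 ^ d) * K := by positivity
  nlinarith

/-- value of the resultant at `e` -/
lemma RR_value (P Q : ℤ[X]) (hP0 : P ≠ 0) (hQ0 : Q ≠ 0) (d : ℕ) (hP : P.natDegree ≤ d)
    (hQ : Q.natDegree ≤ d) (hpos : 0 < P.natDegree + Q.natDegree) (H : ℝ)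
    (hH : 1 ≤ H) (hPH : ∀ k, |(P.coeff k : ℝ)| ≤ H) (hQH : ∀ k, |(Q.coeff k : ℝ)| ≤ H)
    (t T : ℝ) (hT : 0 ≤ T) (ht : |t| ≤ T) :
    |aeval (Real.exp 1) (RR P Q)| ≤ ((2 * d).factorial : ℝ) *
      (Real.exp 1 ^ d * max |aeval (t + Real.exp 1) P| |aeval (t * Real.exp 1) Q| *
        ((d + 1) * (((T + Real.exp 1) * Real.exp 1) ^ d * 2 ^ d) * (Real.exp 1 ^ d * H)) ^
          (2 * d - 1)) := by
  set e := Real.exp 1 with he
  have he1 : 1 ≤ e := by
    rw [he]
    have := Real.add_one_le_exp (1 : ℝ)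
    linarith
  have he0 : e ≠ 0 := by positivity
  set A := (T + e) * e with hA
  have hA1 : 1 ≤ A := by rw [hA]; nlinarith
  have hH0 : 0 ≤ H := by linarith
  set K := e ^ d * H with hK
  have hed : 1 ≤ e ^ d := one_le_pow₀ he1
  have hHK : H ≤ K := by rw [hK]; nlinarith
  have hK0 : 0 ≤ K := by linarith
  set B := ((d : ℝ) + 1) * (A ^ d * 2 ^ d) * K with hB
  have hd1 : (1 : ℝ) ≤ (d : ℝ) + 1 := by
    have : (0 : ℝ) ≤ d := Nat.cast_nonneg d
    linarith
  have hB1 : 1 ≤ B := by
    have h2 : (1 : ℝ) ≤ 2 ^ d := one_le_pow₀ (by norm_num)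
    have h3 : (1 : ℝ) ≤ A ^ d := one_le_pow₀ hA1
    have h4 := mul_le_mul h3 h2 zero_le_one (by linarith)
    have h5 := mul_le_mul hd1 h4 (by norm_num) (by linarith)
    have h6 := mul_le_mul h5 (hH.trans hHK) zero_le_one (by positivity)
    rw [hB]
    linarith
  have hp : (P.coeff P.natDegree : ℝ) ≠ 0 := by
    have : P.coeff P.natDegree ≠ 0 := by
      rw [coeff_natDegree]; exact leadingCoeff_ne_zero.mpr hP0
    exact_mod_cast this
  have hq : (Q.coeff Q.natDegree : ℝ) ≠ 0 := by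
    have : Q.coeff Q.natDegree ≠ 0 := by
      rw [coeff_natDegree]; exact leadingCoeff_ne_zero.mpr hQ0
    exact_mod_cast this
  rw [eval_RR]
  set a : ℕ → ℝ := fun k => (P.coeff k : ℝ) * e ^ (P.natDegree - k) with ha
  set b : ℕ → ℝ := fun k => (Q.coeff k : ℝ) with hb
  have hfd : (sh a (e ^ 2) P.natDegree).natDegree = P.natDegree := by
    apply natDegree_sh
    simpa [ha] using hp
  have hgd : (sh b 0 Q.natDegree).natDegree = Q.natDegree := natDegree_sh _ _ _ hq
  have h1 := resultant_taylor (sh a (e ^ 2) P.natDegree) (sh b 0 Q.natDegree) (t * e)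
  rw [natDegree_taylor, natDegree_taylor, hfd, hgd, taylor_sh, taylor_sh, zero_add] at h1
  rw [← h1]
  have hs : |e ^ 2 + t * e| ≤ A := by
    rw [hA, abs_le] at *
    obtain ⟨h2, h3⟩ := ht
    constructor <;> nlinarith
  have hs' : |t * e| ≤ A := by
    rw [hA, abs_mul, abs_of_pos (by positivity : 0 < e)]
    nlinarith [abs_nonneg t]
  have hak : ∀ k ≤ P.natDegree, |a k| ≤ K := by
    intro k _
    rw [ha, hK]
    simp only
    rw [abs_mul, mul_comm, abs_of_pos (by positivity : 0 < e ^ (P.natDegree - k))]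
    apply mul_le_mul _ (hPH k) (abs_nonneg _) (by positivity)
    exact pow_le_pow_right₀ he1 (by omega)
  have hbk : ∀ k ≤ Q.natDegree, |b k| ≤ K := fun k _ => (hQH k).trans hHK
  have hc1 : ∀ j, |(sh a (e ^ 2 + t * e) P.natDegree).coeff j| ≤ B := fun j =>
    coeff_bound a _ A K hA1 hs _ d j hP hK0 hak
  have hc2 : ∀ j, |(sh b (t * e) Q.natDegree).coeff j| ≤ B := fun j =>
    coeff_bound b _ A K hA1 hs' _ d j hQ hK0 hbk
  set M := max |aeval (t + e) P| |aeval (t * e) Q| with hM
  have hM0 : 0 ≤ M := (abs_nonneg _).trans (le_max_left _ _)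
  -- constant coefficients
  have hz1 : |(sh a (e ^ 2 + t * e) P.natDegree).coeff 0| ≤ e ^ d * M := by
    have h2 : (sh a (e ^ 2 + t * e) P.natDegree).coeff 0 = e ^ P.natDegree * aeval (t + e) P := by
      rw [coeff_zero_eq_eval_zero, eval_sh]
      have h3 := P1_value P e (t * e) he0
      have h4 : (t * e + e ^ 2) / e = t + e := by field_simp
      rw [h4] at h3
      rw [← h3]
      refine sum_congr rfl fun k _ => ?_
      rw [zero_add, add_comm (e ^ 2)]
    rw [h2, abs_mul, abs_of_pos (by positivity : 0 < e ^ P.natDegree)]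
    exact mul_le_mul (pow_le_pow_right₀ he1 hP) (le_max_left _ _) (abs_nonneg _) (by positivity)
  have hz2 : |(sh b (t * e) Q.natDegree).coeff 0| ≤ e ^ d * M := by
    have h2 : (sh b (t * e) Q.natDegree).coeff 0 = aeval (t * e) Q := by
      rw [coeff_zero_eq_eval_zero, eval_sh, aeval_eq_sum]
      refine sum_congr rfl fun k _ => ?_
      rw [zero_add]
    rw [h2]
    have h3 : |aeval (t * e) Q| ≤ M := le_max_right _ _
    nlinarith
  have h2 : |resultant (sh a (e ^ 2 + t * e) P.natDegree) (sh b (t * e) Q.natDegree) P.natDegree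
      Q.natDegree| ≤ ((P.natDegree + Q.natDegree).factorial : ℝ) * (e ^ d * M *
        B ^ (P.natDegree + Q.natDegree - 1)) := by
    unfold resultant
    apply abs_det _ B (e ^ d * M) ⟨0, hpos⟩
    · intro i j
      refine Fin.addCases (fun j₁ => ?_) (fun j₁ => ?_) j
      · simp only [sylvester, Matrix.of_apply, Fin.addCases_left]
        split_ifs
        · exact hc2 _
        · simp; linarith
      · simp only [sylvester, Matrix.of_apply, Fin.addCases_right]
        split_ifs
        · exact hc1 _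
        · simp; linarith
    · intro j
      have h0 : (0 : ℝ) ≤ e ^ d * M := by positivity
      refine Fin.addCases (fun j₁ => ?_) (fun j₁ => ?_) j
      · simp only [sylvester, Matrix.of_apply, Fin.addCases_left]
        split_ifs
        · simp only [Nat.zero_sub]; exact hz2
        · simpa using h0
      · simp only [sylvester, Matrix.of_apply, Fin.addCases_right]
        split_ifs
        · simp only [Nat.zero_sub]; exact hz1
        · simpa using h0
  have hN : P.natDegree + Q.natDegree ≤ 2 * d := by omega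
  refine h2.trans ?_
  apply mul_le_mul
  · exact_mod_cast Nat.factorial_le hN
  · apply mul_le_mul_of_nonneg_left _ (by positivity)
    exact pow_le_pow_right₀ hB1 (by omega)
  · positivity
  · positivity

theorem main (d : ℕ) (hd : 1 ≤ d) (T ε : ℝ) (hT : 0 ≤ T) (hε : 0 < ε) :
    ∃ c : ℝ, 0 < c ∧ ∀ t : ℝ, |t| ≤ T → ∀ H : ℝ, 1 ≤ H → ∀ P Q : ℤ[X], P ≠ 0 → Q ≠ 0 →
      P.natDegree ≤ d → Q.natDegree ≤ d → (∀ k, |(P.coeff k : ℝ)| ≤ H) →
      (∀ k, |(Q.coeff k : ℝ)| ≤ H) →
      c * H ^ (-(4 * (d : ℝ) ^ 3 + 2 * d - 1 + ε)) ≤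
        max |aeval (t + Real.exp 1) P| |aeval (t * Real.exp 1) Q| := by
  have hdR : (1 : ℝ) ≤ d := by exact_mod_cast hd
  have hd0 : (0 : ℝ) < d := by linarith
  set η : ℝ := ε / (2 * d) with hη
  have hη0 : 0 < η := by positivity
  obtain ⟨c0, hc0, hm⟩ := Pool.Agent.W472.AC.e_measP (2 * d ^ 2) η hη0
  set w : ℝ := ((2 * d ^ 2 : ℕ) : ℝ) + η with hw
  have hw0 : 0 < w := by positivity
  set e := Real.exp 1 with he
  have he1 : 1 ≤ e := by
    rw [he]
    have := Real.add_one_le_exp (1 : ℝ)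
    linarith
  set C2 : ℝ := ((2 * d).factorial : ℝ) * ((d + 1) * 2 ^ d) ^ (2 * d) with hC2
  set C1 : ℝ := ((d : ℝ) + 1) * (((T + e) * e) ^ d * 2 ^ d) * e ^ d with hC1
  set C4 : ℝ := ((2 * d).factorial : ℝ) * (e ^ d * C1 ^ (2 * d - 1)) with hC4
  have hfac : (1 : ℝ) ≤ ((2 * d).factorial : ℝ) := by
    exact_mod_cast Nat.succ_le_of_lt (Nat.factorial_pos _)
  have hC2pos : 0 < C2 := by positivity
  have hC1pos : 0 < C1 := by
    have : 0 < T + e := by linarith
    positivity
  have hC4pos : 0 < C4 := by positivity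
  have hC21 : 1 ≤ C2 := by
    have h2 : (1 : ℝ) ≤ 2 ^ d := one_le_pow₀ (by norm_num)
    have h3 : (1 : ℝ) ≤ ((d : ℝ) + 1) * 2 ^ d := by nlinarith
    have h4 : (1 : ℝ) ≤ (((d : ℝ) + 1) * 2 ^ d) ^ (2 * d) := one_le_pow₀ h3
    rw [hC2]
    nlinarith
  set D : ℝ := C2 ^ w * C4 with hD
  have hDpos : 0 < D := mul_pos (Real.rpow_pos_of_pos hC2pos _) hC4pos
  refine ⟨min 1 (c0 / D), lt_min one_pos (div_pos hc0 hDpos), ?_⟩
  intro t ht H hH P Q hP hQ hPd hQd hPH hQH
  have hH0 : 0 < H := by linarith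
  set M := max |aeval (t + e) P| |aeval (t * e) Q| with hM
  have hM0 : 0 ≤ M := (abs_nonneg _).trans (le_max_left _ _)
  set κ : ℝ := 4 * (d : ℝ) ^ 3 + 2 * d - 1 + ε with hκ
  have hκ0 : 0 ≤ κ := by
    have : 0 ≤ (d : ℝ) ^ 3 := by positivity
    rw [hκ]
    linarith
  rw [Real.rpow_neg hH0.le]
  have hHκ : 1 ≤ H ^ κ := Real.one_le_rpow hH hκ0
  rw [← div_eq_mul_inv, div_le_iff₀ (by linarith)]
  rcases Nat.eq_zero_or_pos (P.natDegree + Q.natDegree) with h0 | hpos
  · -- constants
    have h1 : P.natDegree = 0 := by omega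
    obtain ⟨p, hp⟩ := natDegree_eq_zero.mp h1
    have hp0 : p ≠ 0 := by
      rintro rfl
      apply hP
      rw [← hp, C_0]
    have h2 : (1 : ℝ) ≤ |aeval (t + e) P| := by
      have hpv : aeval (t + e) (C p : ℤ[X]) = (p : ℝ) := by
        rw [aeval_C]; simp
      rw [← hp, hpv]
      exact_mod_cast Int.one_le_abs hp0
    have h3 : 1 ≤ M := h2.trans (le_max_left _ _)
    have h4 : min 1 (c0 / D) ≤ 1 := min_le_left _ _
    nlinarith
  · have h1 := hm (RR P Q) (RR_ne_zero P Q hP hQ) (RR_natDegree P Q d hPd hQd) (C2 * H ^ (2 * d))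
      (by
        have : (1 : ℝ) ≤ H ^ (2 * d) := one_le_pow₀ hH
        nlinarith) (by
        intro j
        refine (coeff_le_len _ j).trans ((RR_len P Q d hPd hQd H hH hPH hQH).trans ?_)
        rw [mul_pow, hC2]
        ring_nf
        exact le_rfl)
    have h2 := RR_value P Q hP hQ d hPd hQd hpos H hH hPH hQH t T hT ht
    rw [← he] at h2
    have h3 : ((2 * d).factorial : ℝ) * (e ^ d * M *
        ((d + 1) * (((T + e) * e) ^ d * 2 ^ d) * (e ^ d * H)) ^ (2 * d - 1)) =
        C4 * (H ^ (2 * d - 1) * M) := by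
      have h4 : ((d : ℝ) + 1) * (((T + e) * e) ^ d * 2 ^ d) * (e ^ d * H) = C1 * H := by
        rw [hC1]; ring
      rw [h4, mul_pow, hC4]
      ring
    rw [h3] at h2
    have h4 : (C2 * H ^ (2 * d)) ^ w = C2 ^ w * H ^ ((2 * (d : ℝ)) * w) := by
      rw [Real.mul_rpow hC2pos.le (by positivity)]
      congr 1
      rw [← Real.rpow_natCast, ← Real.rpow_mul hH0.le]
      push_cast
      rfl
    have h5 : c0 ≤ D * (H ^ κ * M) := by
      calc c0 ≤ (C2 * H ^ (2 * d)) ^ w * |aeval e (RR P Q)| := h1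
        _ ≤ (C2 * H ^ (2 * d)) ^ w * (C4 * (H ^ (2 * d - 1) * M)) :=
            mul_le_mul_of_nonneg_left h2 (by positivity)
        _ = D * (H ^ ((2 * (d : ℝ)) * w) * H ^ (2 * d - 1) * M) := by rw [h4, hD]; ring
        _ = D * (H ^ κ * M) := by
            congr 2
            rw [← Real.rpow_natCast, ← Real.rpow_add hH0]
            congr 1
            have e1 : ((2 * d - 1 : ℕ) : ℝ) = 2 * d - 1 := by
              rw [Nat.cast_sub (by omega)]
              push_cast
              ring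
            rw [e1, hw, hκ, hη]
            push_cast
            field_simp
            ring
    have h6 : c0 / D ≤ H ^ κ * M := by
      rw [div_le_iff₀ hDpos]
      linarith
    have h7 : min 1 (c0 / D) ≤ c0 / D := min_le_right _ _
    linarith

/-- **A simultaneous transcendence measure.** Let `d ≥ 1` and `ε > 0`. Uniformly in real `t` with
`|t| ≤ T`, for all `H ≥ 1` and nonzero integer polynomials `P`, `Q` of degree at most `d` with
coefficients at most `H`, the larger of `|P (t + e)|`, `|Q (t e)|` is at least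
`c H ^ (- (4 d ^ 3 + 2 d - 1 + ε))`. For `t = π`: for every `H`, either the first bound holds for
`π + e` and all such `P` or the second one for `π e` and all such `Q`. -/
theorem result (d : ℕ) (hd : 1 ≤ d) (ε : ℝ) (hε : 0 < ε) :
    (∀ T : ℝ, ∃ c : ℝ, 0 < c ∧ ∀ t : ℝ, |t| ≤ T → ∀ H : ℝ, 1 ≤ H → ∀ P Q : ℤ[X], P ≠ 0 → Q ≠ 0 →
      P.natDegree ≤ d → Q.natDegree ≤ d → (∀ k, |(P.coeff k : ℝ)| ≤ H) →
      (∀ k, |(Q.coeff k : ℝ)| ≤ H) →
      c * H ^ (-(4 * (d : ℝ) ^ 3 + 2 * d - 1 + ε)) ≤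
        max |aeval (t + Real.exp 1) P| |aeval (t * Real.exp 1) Q|) ∧
    (∃ c : ℝ, 0 < c ∧ ∀ H : ℝ, 1 ≤ H →
      (∀ P : ℤ[X], P ≠ 0 → P.natDegree ≤ d → (∀ k, |(P.coeff k : ℝ)| ≤ H) →
        c * H ^ (-(4 * (d : ℝ) ^ 3 + 2 * d - 1 + ε)) ≤ |aeval (Real.pi + Real.exp 1) P|) ∨
      (∀ Q : ℤ[X], Q ≠ 0 → Q.natDegree ≤ d → (∀ k, |(Q.coeff k : ℝ)| ≤ H) →
        c * H ^ (-(4 * (d : ℝ) ^ 3 + 2 * d - 1 + ε)) ≤ |aeval (Real.pi * Real.exp 1) Q|)) := by
  constructor
  · intro T
    obtain ⟨c, hc, h⟩ := main d hd (max T 0) ε (le_max_right _ _) hε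
    exact ⟨c, hc, fun t ht => h t (ht.trans (le_max_left _ _))⟩
  · obtain ⟨c, hc, h⟩ := main d hd Real.pi ε Real.pi_pos.le hε
    refine ⟨c, hc, fun H hH => ?_⟩
    by_contra hcon
    push Not at hcon
    obtain ⟨⟨P, hP, hPd, hPH, hP'⟩, ⟨Q, hQ, hQd, hQH, hQ'⟩⟩ := hcon
    have h1 := h Real.pi (by rw [abs_of_pos Real.pi_pos]) H hH P Q hP hQ hPd hQd hPH hQH
    exact absurd h1 (not_le.mpr (max_lt hP' hQ'))

end Pool.Agent.Results.MP_a49cf6_nt.SimultaneousMeasure
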